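import Pool.Agent.K3h17.BK.FinF

set_option autoImplicit false

/-!
The threshold for the directional modulus in a general convex polygon.
-/

namespace Pool.Agent.K3h17.BK

open Set MeasureTheory Filter Topology Pool.Agent.W780.PG Pool.Agent.W780.BB

open scoped Real

variable {n : ℕ} {p : Fin (n + 3) → ℂ}

theorem tendsto_L : Tendsto (fun h : ℝ => Real.log (1 / h)) (𝓝[>] 0) atTop := by
  have h2 : Tendsto (fun h : ℝ => 1 / h) (𝓝[>] 0) atTop := by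
    simp only [one_div]
    exact tendsto_inv_nhdsGT_zero
  exact Real.tendsto_log_atTop.comp h2

/-- the length of the itineraries used at the angle `h` on the level `j` -/
noncomputable def kj (j : ℕ) (h : ℝ) : ℕ := ⌈(j : ℝ) ^ 2 * Real.log (1 / h)⌉₊

/-- the level `j` can be used at the angle `h` -/
def PJ (p : Fin (n + 3) → ℂ) (j : ℕ) (h : ℝ) : Prop :=
  ((itin p (kj j h)).ncard : ℝ) ^ 2 * (kj j h : ℝ) ^ 3 * h ≤ 1 / (j : ℝ)

theorem PJ_zero (h : ℝ) : PJ p 0 h := by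
  unfold PJ kj
  simp

theorem PJ_ev (hp : IsConvexPolygon p) (j : ℕ) : ∀ᶠ h in 𝓝[>] (0 : ℝ), PJ p j h := by
  rcases Nat.eq_zero_or_pos j with rfl | hj
  · exact Eventually.of_forall fun h => PJ_zero h
  have hjR : (1 : ℝ) ≤ j := by exact_mod_cast hj
  have hj0 : (0 : ℝ) < j := by linarith
  obtain ⟨κ, hκ⟩ : ∃ κ : ℝ, κ = 1 / (8 * (j : ℝ) ^ 2) := ⟨_, rfl⟩
  have hκ0 : 0 < κ := by rw [hκ]; positivity
  obtain ⟨C, hC, hCk⟩ := katok_itin hp hκ0
  obtain ⟨D, hD⟩ : ∃ D : ℝ, D = C ^ 2 * Real.exp (2 * κ) * ((j : ℝ) ^ 2 + 1) ^ 3 := ⟨_, rfl⟩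
  have hD0 : 0 < D := by rw [hD]; positivity
  have h1 := (isLittleO_pow_exp_pos_mul_atTop (k := 3) (b := 1 / 4) (by norm_num)).bound
    (show (0 : ℝ) < 1 by norm_num)
  have h2 : ∀ᶠ L : ℝ in atTop, D * Real.exp (-(L / 2)) ≤ 1 / (j : ℝ) := by
    have h3 : Tendsto (fun L : ℝ => D * Real.exp (-(L / 2))) atTop (𝓝 (D * 0)) := by
      refine Tendsto.const_mul D ?_
      exact Real.tendsto_exp_atBot.comp
        (tendsto_neg_atTop_atBot.comp (tendsto_id.atTop_div_const (by norm_num : (0 : ℝ) < 2)))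
    rw [mul_zero] at h3
    have h4 : (0 : ℝ) < 1 / (j : ℝ) := by positivity
    filter_upwards [h3.eventually (gt_mem_nhds h4)] with L hL using hL.le
  have hev := tendsto_L.eventually ((eventually_ge_atTop (1 : ℝ)).and (h1.and h2))
  filter_upwards [hev, self_mem_nhdsWithin] with h hh hh0
  obtain ⟨a1, a2, a3⟩ := hh
  have hh0' : 0 < h := hh0
  obtain ⟨L, hL⟩ : ∃ L : ℝ, L = Real.log (1 / h) := ⟨_, rfl⟩
  rw [← hL] at a1 a2 a3
  have hexp : h = Real.exp (-L) := by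
    rw [hL, one_div, Real.log_inv, neg_neg, Real.exp_log hh0']
  obtain ⟨k, hk⟩ : ∃ k : ℕ, k = kj j h := ⟨_, rfl⟩
  have hk1 : (k : ℝ) ≤ (j : ℝ) ^ 2 * L + 1 := by
    rw [hk]
    unfold kj
    rw [← hL]
    exact (Nat.ceil_lt_add_one (by positivity)).le
  have hk2 : (k : ℝ) ≤ ((j : ℝ) ^ 2 + 1) * L := by
    calc (k : ℝ) ≤ (j : ℝ) ^ 2 * L + 1 := hk1
      _ ≤ (j : ℝ) ^ 2 * L + L := by linarith
      _ = _ := by ring
  unfold PJ
  rw [← hk]
  have hc : ((itin p k).ncard : ℝ) ≤ C * Real.exp (κ * k) := hCk k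
  have hL3 : L ^ 3 ≤ Real.exp (1 / 4 * L) := by
    have := a2
    rw [Real.norm_eq_abs, Real.norm_eq_abs, one_mul, abs_of_nonneg (by positivity),
      abs_of_pos (Real.exp_pos _)] at this
    exact this
  have he1 : Real.exp (κ * k) ^ 2 ≤ Real.exp (2 * κ) * Real.exp (1 / 4 * L) := by
    rw [sq, ← Real.exp_add, ← Real.exp_add]
    apply Real.exp_le_exp.2
    have h5 : κ * (j : ℝ) ^ 2 = 1 / 8 := by rw [hκ]; field_simp
    have h6 : κ * k ≤ κ * ((j : ℝ) ^ 2 * L + 1) := by gcongr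
    have h7 : κ * ((j : ℝ) ^ 2 * L + 1) = 1 / 8 * L + κ := by rw [mul_add, ← mul_assoc, h5]; ring
    linarith
  calc ((itin p k).ncard : ℝ) ^ 2 * (k : ℝ) ^ 3 * h
      ≤ (C * Real.exp (κ * k)) ^ 2 * (((j : ℝ) ^ 2 + 1) * L) ^ 3 * h := by gcongr
    _ = C ^ 2 * (Real.exp (κ * k) ^ 2) * ((j : ℝ) ^ 2 + 1) ^ 3 * (L ^ 3) * h := by ring
    _ ≤ C ^ 2 * (Real.exp (2 * κ) * Real.exp (1 / 4 * L)) * ((j : ℝ) ^ 2 + 1) ^ 3 *
        (Real.exp (1 / 4 * L)) * h := by gcongr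
    _ = D * (Real.exp (1 / 4 * L) * Real.exp (1 / 4 * L) * h) := by rw [hD]; ring
    _ = D * Real.exp (-(L / 2)) := by
        rw [hexp, ← Real.exp_add, ← Real.exp_add]
        congr 2
        ring
    _ ≤ 1 / (j : ℝ) := a3

/-- the levels which can be used at the angle `h` -/
def lev (p : Fin (n + 3) → ℂ) (h : ℝ) : Set ℕ := {j | (j : ℝ) ≤ 1 / h ∧ ∀ i ≤ j, PJ p i h}

/-- the threshold -/
noncomputable def Lam (p : Fin (n + 3) → ℂ) (h : ℝ) : ℝ := ((sSup (lev p h) : ℕ) : ℝ)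

theorem lev_bdd (h : ℝ) : BddAbove (lev p h) := by
  refine ⟨⌊1 / h⌋₊, fun j hj => ?_⟩
  exact Nat.le_floor hj.1

theorem Lam_tendsto (hp : IsConvexPolygon p) : Tendsto (Lam p) (𝓝[>] 0) atTop := by
  rw [tendsto_atTop]
  intro b
  obtain ⟨J, hJ⟩ := exists_nat_ge b
  have h1 : ∀ᶠ h in 𝓝[>] (0 : ℝ), ∀ i ≤ J, PJ p i h := by
    have : ∀ᶠ h in 𝓝[>] (0 : ℝ), ∀ i ∈ Finset.range (J + 1), PJ p i h :=
      (Filter.eventually_all_finset _).2 fun i _ => PJ_ev hp i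
    filter_upwards [this] with h hh i hi
    exact hh i (Finset.mem_range.2 (by omega))
  have h2 : ∀ᶠ h in 𝓝[>] (0 : ℝ), (J : ℝ) ≤ 1 / h := by
    have h3 : Tendsto (fun h : ℝ => 1 / h) (𝓝[>] 0) atTop := by
      simp only [one_div]
      exact tendsto_inv_nhdsGT_zero
    exact h3.eventually (eventually_ge_atTop _)
  filter_upwards [h1, h2] with h a1 a2
  refine hJ.trans ?_
  have : J ≤ sSup (lev p h) := le_csSup (lev_bdd h) ⟨a2, a1⟩
  unfold Lam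
  exact_mod_cast this

/-- A modulus below the threshold along a sequence is small. -/
theorem small_of_Lam (hp : IsConvexPolygon p) {m : ℝ → ENNReal}
    (hm : ∃ᶠ h in 𝓝[>] (0 : ℝ), m h ≤ ENNReal.ofReal (Lam p h * (h * Real.log (1 / h)))) :
    SmallMod p m := by
  intro ε hε
  have h1 := (Lam_tendsto hp).eventually (eventually_ge_atTop (1 / ε))
  have h2 : ∀ᶠ h in 𝓝[>] (0 : ℝ), 0 < h ∧ h < 1 := by
    filter_upwards [Ioo_mem_nhdsGT (zero_lt_one : (0 : ℝ) < 1)] with h hh using hh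
  refine (hm.and_eventually (h1.and h2)).mono fun h hh => ?_
  obtain ⟨a1, a2, a3, a4⟩ := hh
  obtain ⟨j, hj⟩ : ∃ j : ℕ, j = sSup (lev p h) := ⟨_, rfl⟩
  have hjm : j ∈ lev p h := by
    rw [hj]
    refine Nat.sSup_mem ⟨0, ?_, ?_⟩ (lev_bdd h)
    · simp only [Nat.cast_zero]
      positivity
    · intro i hi
      obtain rfl : i = 0 := by omega
      exact PJ_zero h
  have hLj : Lam p h = j := by unfold Lam; rw [hj]
  rw [hLj] at a1 a2
  have hj0 : (0 : ℝ) < j := lt_of_lt_of_le (by positivity) a2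
  have hjε : 1 / (j : ℝ) ≤ ε := by
    rw [div_le_iff₀ hj0]
    rw [div_le_iff₀ hε] at a2
    linarith
  have hL0 : 0 ≤ Real.log (1 / h) := by
    apply Real.log_nonneg
    rw [le_div_iff₀ a3]
    linarith
  refine ⟨kj j h, (hjm.2 j le_rfl).trans hjε, a1.trans ?_⟩
  apply ENNReal.ofReal_le_ofReal
  have hk : (j : ℝ) ^ 2 * Real.log (1 / h) ≤ (kj j h : ℝ) := Nat.le_ceil _
  calc (j : ℝ) * (h * Real.log (1 / h))
      = 1 / (j : ℝ) * ((j : ℝ) ^ 2 * Real.log (1 / h) * h) := by field_simp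
    _ ≤ ε * ((kj j h : ℝ) * h) := by gcongr

end Pool.Agent.K3h17.BK
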