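import Pool.Agent.K3h17.BK.Loc

set_option autoImplicit false

/-!
The number of words grows subexponentially (Katok's theorem for the coding of the billiard in a
convex polygon), with an elementary proof.
-/

namespace Pool.Agent.K3h17.BK

open Complex Set MeasureTheory Filter Topology Pool.Agent.W780.PG Pool.Agent.W780.BB
  Pool.Agent.TH225.BL

open scoped Real ComplexConjugate

variable {n : ℕ} {p : Fin (n + 3) → ℂ}

theorem dir_diff (θ φ : ℝ) : ‖dir θ - dir φ‖ ≤ |θ - φ| := by
  have h : dir θ - dir φ = exp ((φ : ℂ) * I) * (exp (I * ((θ - φ : ℝ) : ℂ)) - 1) := by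
    unfold dir
    rw [mul_sub, ← Complex.exp_add, mul_one]
    congr 2
    push_cast
    ring
  rw [h, norm_mul, Complex.norm_exp_ofReal_mul_I, one_mul]
  exact (Real.norm_exp_I_mul_ofReal_sub_one_le).trans (by rw [Real.norm_eq_abs])

theorem im_diff (θ φ : ℝ) (z : ℂ) :
    |(conj (dir θ) * z).im - (conj (dir φ) * z).im| ≤ |θ - φ| * ‖z‖ := by
  rw [← Complex.sub_im, ← sub_mul, ← map_sub]
  refine (Complex.abs_im_le_norm _).trans ?_
  rw [norm_mul, RCLike.norm_conj]
  exact mul_le_mul_of_nonneg_right (dir_diff θ φ) (norm_nonneg _)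

theorem fl_diff (i : Fin (n + 3)) (x y : ℝ × ℝ) :
    |(fl p i x).2 - (fl p i y).2| ≤ |x.2 - y.2| + 2 * Rb p * |x.1 - y.1| := by
  have h1 := im_diff x.1 y.1 (p i)
  have h2 := im_diff (2 * tau p i - x.1) (2 * tau p i - y.1) (p i)
  have h3 : |2 * tau p i - x.1 - (2 * tau p i - y.1)| = |x.1 - y.1| := by
    rw [show 2 * tau p i - x.1 - (2 * tau p i - y.1) = -(x.1 - y.1) by ring, abs_neg]
  rw [h3] at h2
  have h4 : |x.1 - y.1| * ‖p i‖ ≤ |x.1 - y.1| * Rb p :=
    mul_le_mul_of_nonneg_left (le_Rb i) (abs_nonneg _)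
  have e : (fl p i x).2 - (fl p i y).2 =
      ((conj (dir x.1) * p i).im - (conj (dir y.1) * p i).im) +
      ((conj (dir (2 * tau p i - x.1)) * p i).im - (conj (dir (2 * tau p i - y.1)) * p i).im) -
      (x.2 - y.2) := by
    unfold fl
    simp only []
    ring
  rw [e]
  refine (abs_sub _ _).trans ?_
  have h5 := abs_add_le ((conj (dir x.1) * p i).im - (conj (dir y.1) * p i).im)
    ((conj (dir (2 * tau p i - x.1)) * p i).im - (conj (dir (2 * tau p i - y.1)) * p i).im)
  linarith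

theorem fw_fst (w : List (Fin (n + 3))) : ∃ e c : ℝ, (e = 1 ∨ e = -1) ∧
    ∀ x : ℝ × ℝ, (fw p w x).1 = e * x.1 + c := by
  induction w with
  | nil => exact ⟨1, 0, Or.inl rfl, fun x => by simp [fw]⟩
  | cons i w ih =>
    obtain ⟨e, c, he, h⟩ := ih
    refine ⟨-e, e * (2 * tau p i) + c, by rcases he with rfl | rfl <;> simp, fun x => ?_⟩
    rw [fw, h]
    unfold fl
    simp only []
    ring

theorem fw_snd (w : List (Fin (n + 3))) : ∀ x y : ℝ × ℝ,
    |(fw p w x).2 - (fw p w y).2| ≤ |x.2 - y.2| + 2 * Rb p * w.length * |x.1 - y.1| := by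
  induction w with
  | nil => intro x y; simp [fw]
  | cons i w ih =>
    intro x y
    rw [fw, fw]
    refine (ih _ _).trans ?_
    have h1 := fl_diff (p := p) i x y
    have h2 : |(fl p i x).1 - (fl p i y).1| = |x.1 - y.1| := by
      unfold fl
      simp only []
      rw [show 2 * tau p i - x.1 - (2 * tau p i - y.1) = -(x.1 - y.1) by ring, abs_neg]
    rw [h2, List.length_cons]
    push_cast
    linarith

/-- The number of boxes needed for the image of a box. -/
noncomputable def db (p : Fin (n + 3) → ℂ) (m : ℕ) : ℕ := ⌊2 * (1 + 2 * Rb p * m)⌋₊ + 1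

theorem box_image (w : List (Fin (n + 3))) (a b δ : ℝ) (hδ : 0 < δ) :
    ∃ a' b' : ℝ, ∀ x ∈ bx a b δ, ∃ l < db p w.length, fw p w x ∈ bx a' (b' + l * δ) δ := by
  obtain ⟨e, c, he, h⟩ := fw_fst (p := p) w
  set L := 1 + 2 * Rb p * w.length with hL
  have hR := Rb_nonneg (p := p)
  have hL0 : 0 < L := by positivity
  obtain ⟨a', ha'⟩ : ∃ a' : ℝ, ∀ x ∈ bx a b δ, (fw p w x).1 ∈ Icc a' (a' + δ) := by
    rcases he with rfl | rfl
    · refine ⟨a + c, ?_⟩
      rintro x ⟨⟨h1, h2⟩, -⟩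
      rw [h]
      constructor <;> linarith
    · refine ⟨-a - δ + c, ?_⟩
      rintro x ⟨⟨h1, h2⟩, -⟩
      rw [h]
      constructor <;> linarith
  refine ⟨a', (fw p w (a, b)).2 - L * δ, ?_⟩
  intro x hx
  have h1 := fw_snd (p := p) w x (a, b)
  have h2 : |x.2 - b| ≤ δ := by
    obtain ⟨-, h3, h4⟩ := hx
    rw [abs_le]
    constructor <;> linarith
  have h3 : |x.1 - a| ≤ δ := by
    obtain ⟨⟨h3, h4⟩, -⟩ := hx
    rw [abs_le]
    constructor <;> linarith
  have h4 : |(fw p w x).2 - (fw p w (a, b)).2| ≤ L * δ := by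
    refine h1.trans ?_
    have : 2 * Rb p * w.length * |x.1 - a| ≤ 2 * Rb p * w.length * δ := by gcongr
    simp only []
    rw [hL]
    linarith
  rw [abs_le] at h4
  set s := ((fw p w x).2 - ((fw p w (a, b)).2 - L * δ)) / δ with hs
  have hs0 : 0 ≤ s := div_nonneg (by linarith [h4.1]) hδ.le
  have hs1 : s ≤ 2 * L := by
    rw [hs, div_le_iff₀ hδ]
    linarith [h4.2]
  have hsd : s * δ = (fw p w x).2 - ((fw p w (a, b)).2 - L * δ) := by
    rw [hs]; field_simp
  refine ⟨⌊s⌋₊, ?_, ha' x hx, ?_, ?_⟩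
  · unfold db
    rw [← hL]
    exact Nat.lt_succ_of_le (Nat.floor_le_floor hs1)
  · have : (⌊s⌋₊ : ℝ) ≤ s := Nat.floor_le hs0
    have h5 : (⌊s⌋₊ : ℝ) * δ ≤ s * δ := by gcongr
    linarith
  · have : s < ⌊s⌋₊ + 1 := Nat.lt_floor_add_one s
    have h5 : s * δ < (⌊s⌋₊ + 1) * δ := by gcongr
    linarith

open Classical in
theorem words_step {m k A : ℕ} {δ : ℝ} (hδ : 0 < δ) {M : ℕ}
    (hm : ∀ a b : ℝ, (words p m (bx a b δ)).ncard ≤ M)
    (hk : ∀ a b : ℝ, (words p k (bx a b δ)).ncard ≤ A) (a b : ℝ) :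
    (words p (m + k) (bx a b δ)).ncard ≤ M * (db p m * A) := by
  choose a' b' hab using fun w : List (Fin (n + 3)) => box_image (p := p) w a b δ hδ
  set F := (words_finite (p := p) m (bx a b δ)).toFinset with hF
  have hFm : ∀ w, w ∈ F ↔ w ∈ words p m (bx a b δ) := fun w => by rw [hF]; simp
  set G : List (Fin (n + 3)) → ℕ → Finset (List (Fin (n + 3))) := fun w l =>
    ((words_finite (p := p) k (bx (a' w) (b' w + l * δ) δ)).toFinset).image (w ++ ·) with hG
  have hsub : words p (m + k) (bx a b δ) ⊆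
      ((F.biUnion fun w => (Finset.range (db p m)).biUnion fun l => G w l : Finset _) :
        Set (List (Fin (n + 3)))) := by
    rintro w ⟨hw, x, hx, hRW⟩
    have e : w = w.take m ++ w.drop m := (List.take_append_drop m w).symm
    rw [e, RW_append] at hRW
    have hl1 : (w.take m).length = m := by rw [List.length_take]; omega
    have hl2 : (w.drop m).length = k := by rw [List.length_drop]; omega
    obtain ⟨l, hl, hxl⟩ := hab (w.take m) x hx
    rw [hl1] at hl
    rw [Finset.mem_coe, Finset.mem_biUnion]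
    refine ⟨w.take m, (hFm _).2 ⟨hl1, x, hx, hRW.1⟩, ?_⟩
    rw [Finset.mem_biUnion]
    refine ⟨l, Finset.mem_range.2 hl, ?_⟩
    rw [hG, Finset.mem_image]
    refine ⟨w.drop m, ?_, e.symm⟩
    rw [Set.Finite.mem_toFinset]
    exact ⟨hl2, _, hxl, hRW.2⟩
  refine (Set.ncard_le_ncard hsub (Finset.finite_toSet _)).trans ?_
  rw [Set.ncard_coe_finset]
  have hG2 : ∀ w l, (G w l).card ≤ A := by
    intro w l
    refine Finset.card_image_le.trans ?_
    rw [← Set.ncard_eq_toFinset_card _ (words_finite _ _)]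
    exact hk _ _
  have hF2 : F.card ≤ M := by
    rw [hF, ← Set.ncard_eq_toFinset_card _ (words_finite _ _)]
    exact hm a b
  calc _ ≤ F.card * (db p m * A) := by
        refine Finset.card_biUnion_le_card_mul _ _ _ fun w _ => ?_
        refine (Finset.card_biUnion_le_card_mul _ _ A fun l _ => hG2 w l).trans ?_
        rw [Finset.card_range]
    _ ≤ M * (db p m * A) := Nat.mul_le_mul_right _ hF2

theorem words_triv (r : ℕ) (U : Set (ℝ × ℝ)) : (words p r U).ncard ≤ (n + 3) ^ r := by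
  have h1 : words p r U ⊆ {l : List (Fin (n + 3)) | l.length = r} := fun _ h => h.1
  refine (Set.ncard_le_ncard h1 (List.finite_length_eq _ r)).trans ?_
  have h2 : ({l : List (Fin (n + 3)) | l.length = r}).ncard =
      Nat.card (List.Vector (Fin (n + 3)) r) := rfl
  rw [h2, Nat.card_eq_fintype_card, card_vector, Fintype.card_fin]

theorem words_pow {m : ℕ} {δ : ℝ} (hδ : 0 < δ) {M : ℕ}
    (hm : ∀ a b : ℝ, (words p m (bx a b δ)).ncard ≤ M) (r : ℕ) : ∀ (j : ℕ) (a b : ℝ),
    (words p (m * j + r) (bx a b δ)).ncard ≤ (M * db p m) ^ j * (n + 3) ^ r := by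
  intro j
  induction j with
  | zero =>
    intro a b
    rw [mul_zero, zero_add, pow_zero, one_mul]
    exact words_triv r _
  | succ j ih =>
    intro a b
    have e : m * (j + 1) + r = m + (m * j + r) := by ring
    rw [e]
    refine (words_step hδ hm ih a b).trans (le_of_eq ?_)
    ring

open Classical in
/-- The number of all words of a given positive length. -/
theorem words_all {k A : ℕ} {δ : ℝ} (hδ : 0 < δ) (hk0 : 0 < k)
    (hk : ∀ a b : ℝ, (words p k (bx a b δ)).ncard ≤ A) :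
    (words p k univ).ncard ≤ (⌊2 * π / δ⌋₊ + 1) * ((⌊2 * Rb p / δ⌋₊ + 1) * A) := by
  have hpi := Real.pi_pos
  set G : ℕ → ℕ → Finset (List (Fin (n + 3))) := fun i l =>
    (words_finite (p := p) k (bx (i * δ) (-Rb p + l * δ) δ)).toFinset with hG
  have hsub : words p k univ ⊆
      (((Finset.range (⌊2 * π / δ⌋₊ + 1)).biUnion fun i =>
        (Finset.range (⌊2 * Rb p / δ⌋₊ + 1)).biUnion fun l => G i l : Finset _) :
        Set (List (Fin (n + 3)))) := by
    rintro w ⟨hw, x, -, hRW⟩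
    have hx2 : |x.2| ≤ Rb p := by
      cases w with
      | nil => simp at hw; omega
      | cons i w => exact RW_bounded hRW
    rw [abs_le] at hx2
    obtain ⟨c, hc1, hc2⟩ : ∃ c : ℤ, 0 ≤ x.1 + 2 * π * c ∧ x.1 + 2 * π * c ≤ 2 * π := by
      refine ⟨-⌊x.1 / (2 * π)⌋, ?_⟩
      have h1 := Int.floor_le (x.1 / (2 * π))
      have h2 := Int.lt_floor_add_one (x.1 / (2 * π))
      rw [le_div_iff₀ (by positivity)] at h1
      rw [div_lt_iff₀ (by positivity)] at h2
      push_cast
      constructor <;> nlinarith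
    set θ := x.1 + 2 * π * c with hθ
    set s := θ / δ with hs
    have hs0 : 0 ≤ s := div_nonneg hc1 hδ.le
    have hsd : s * δ = θ := by rw [hs]; field_simp
    set r := (x.2 + Rb p) / δ with hr
    have hr0 : 0 ≤ r := div_nonneg (by linarith [hx2.1]) hδ.le
    have hrd : r * δ = x.2 + Rb p := by rw [hr]; field_simp
    rw [Finset.mem_coe, Finset.mem_biUnion]
    refine ⟨⌊s⌋₊, Finset.mem_range.2 (Nat.lt_succ_of_le (Nat.floor_le_floor ?_)), ?_⟩
    · rw [hs]; gcongr
    rw [Finset.mem_biUnion]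
    refine ⟨⌊r⌋₊, Finset.mem_range.2 (Nat.lt_succ_of_le (Nat.floor_le_floor ?_)), ?_⟩
    · rw [hr]
      gcongr
      linarith [hx2.2]
    rw [hG, Set.Finite.mem_toFinset]
    refine ⟨hw, (θ, x.2), ⟨⟨?_, ?_⟩, ?_, ?_⟩, (RW_period w x c).2 hRW⟩
    · have : (⌊s⌋₊ : ℝ) * δ ≤ s * δ := by gcongr; exact Nat.floor_le hs0
      simp only []
      linarith
    · have : s * δ < (⌊s⌋₊ + 1) * δ := by gcongr; exact Nat.lt_floor_add_one s
      simp only []
      linarith
    · have : (⌊r⌋₊ : ℝ) * δ ≤ r * δ := by gcongr; exact Nat.floor_le hr0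
      simp only []
      linarith
    · have : r * δ < (⌊r⌋₊ + 1) * δ := by gcongr; exact Nat.lt_floor_add_one r
      simp only []
      linarith
  refine (Set.ncard_le_ncard hsub (Finset.finite_toSet _)).trans ?_
  rw [Set.ncard_coe_finset]
  have hG2 : ∀ i l, (G i l).card ≤ A := by
    intro i l
    rw [hG, ← Set.ncard_eq_toFinset_card _ (words_finite _ _)]
    exact hk _ _
  have h3 := Finset.card_biUnion_le_card_mul (Finset.range (⌊2 * π / δ⌋₊ + 1))
    (fun i => (Finset.range (⌊2 * Rb p / δ⌋₊ + 1)).biUnion fun l => G i l)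
    ((⌊2 * Rb p / δ⌋₊ + 1) * A) (fun i _ => by
      have := Finset.card_biUnion_le_card_mul (Finset.range (⌊2 * Rb p / δ⌋₊ + 1))
        (fun l => G i l) A (fun l _ => hG2 i l)
      rwa [Finset.card_range] at this)
  rwa [Finset.card_range] at h3

end Pool.Agent.K3h17.BK
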