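import Pool.Agent.K3h17.BK.Kat

set_option autoImplicit false

/-!
The fan lemma for the visible vertices, and the measure of the bad set.
-/

namespace Pool.Agent.K3h17.BK

open Complex Set MeasureTheory Filter Topology Pool.Agent.W780.PG Pool.Agent.W780.BB
  Pool.Agent.TH225.BL
open Pool.Agent.W174.PG (lft_line lft_left lft_right online i1 i2 inj side_facts side_of)
open Pool.Agent.W12.BB.Fan (sf_line cr_facts mem_line side_of_seg)

open scoped Real ComplexConjugate

variable {n : ℕ} {p : Fin (n + 3) → ℂ}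

/-- The vertices of the unfolded polygons met by a path with itinerary `w`. -/
def Vis (p : Fin (n + 3) → ℂ) (w : List (Fin (n + 3))) : Set ℂ :=
  {a | ∃ u : List (Fin (n + 3)), u <+: w ∧ ∃ j, a = uf p u (p j)}

/-- If the triangle contains no vertex of the polygons met by one side, then both sides have the
same itinerary. -/
theorem fan_vis (hR : S_Ref) (hp : IsConvexPolygon p) : ∀ (w : List (Fin (n + 3)))
    (B C A : ℂ),
    ((B ∈ reg p ∧ C ∈ reg p) ∨ ∃ k, B ∈ side p k ∧ C ∈ side p k) → Ch p w B A →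
    (∀ a ∈ Vis p w, a ∉ convexHull ℝ ({A, B, C} : Set ℂ)) → Ch p w C A := by
  intro w
  induction w with
  | nil =>
    intro B C A _ hch _
    exact hch
  | cons i w ih =>
    intro B C A hbase hch hV
    obtain ⟨hB, hA, hcr, hrest⟩ := hch
    obtain ⟨hr1, _, _, hr4, _, hr6, _⟩ := hR n p hp
    have hC : 0 < sf p i C := by
      rcases hbase with h | ⟨k, hBk, hCk⟩
      · exact h.2 i
      · have hik : i ≠ k := by
          rintro rfl
          have : sf p i B = 0 := (side_facts hp i hBk).2.1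
          linarith
        exact (side_facts hp k hCk).2.2 i hik
    have hconv : Convex ℝ (convexHull ℝ ({A, B, C} : Set ℂ)) := convex_convexHull ℝ _
    have mA : A ∈ convexHull ℝ ({A, B, C} : Set ℂ) := subset_convexHull ℝ _ (by simp)
    have mB : B ∈ convexHull ℝ ({A, B, C} : Set ℂ) := subset_convexHull ℝ _ (by simp)
    have mC : C ∈ convexHull ℝ ({A, B, C} : Set ℂ) := subset_convexHull ℝ _ (by simp)
    obtain ⟨sB, zB⟩ := cr_facts hB hA
    obtain ⟨sC, zC⟩ := cr_facts hC hA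
    have mY : cr p i B A ∈ convexHull ℝ ({A, B, C} : Set ℂ) := hconv.segment_subset mB mA sB
    have mY1 : cr p i C A ∈ convexHull ℝ ({A, B, C} : Set ℂ) := hconv.segment_subset mC mA sC
    have hvert : ∀ j, p j ∉ convexHull ℝ ({A, B, C} : Set ℂ) := fun j =>
      hV (p j) ⟨[], List.nil_prefix, j, rfl⟩
    -- the crossing points are on the open side
    have hY : cr p i B A ∈ side p i := by
      refine side_of hp i (fun j => ?_) zB (fun k hk => hvert k (hk ▸ mY))
      by_cases hj : j = i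
      · rw [hj]; exact zB.ge
      · exact (hcr j hj).le
    have hY1 : cr p i C A ∈ side p i := side_of_seg hp hconv hY zC mY mY1 hvert
    refine ⟨hC, hA, fun j hj => (side_facts hp i hY1).2.2 j hj, ?_⟩
    refine ih (cr p i B A) (cr p i C A) (rf p i A) (Or.inr ⟨i, hY, hY1⟩) hrest ?_
    rintro a ⟨w2, hw2, j, rfl⟩ ha
    refine hV (rf p i (uf p w2 (p j))) ⟨i :: w2, List.cons_prefix_cons.2 ⟨rfl, hw2⟩, j, rfl⟩ ?_
    -- the preimage of the triangle is convex
    have hpre : Convex ℝ {z | rf p i z ∈ convexHull ℝ ({A, B, C} : Set ℂ)} := by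
      intro z hz z' hz' s t hs ht hst
      rw [Set.mem_ofPred_eq] at hz hz' ⊢
      have e : s • z + t • z' = z + t • (z' - z) := by
        have : s = 1 - t := by linarith
        rw [this, sub_smul, one_smul, smul_sub]
        ring
      rw [e, hr6]
      exact mem_line hconv hz hz' ht (by linarith)
    have hsub : convexHull ℝ ({rf p i A, cr p i B A, cr p i C A} : Set ℂ) ⊆
        {z | rf p i z ∈ convexHull ℝ ({A, B, C} : Set ℂ)} := by
      refine convexHull_min ?_ hpre
      intro z hz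
      rcases hz with rfl | rfl | rfl
      · rw [Set.mem_ofPred_eq, hr1]
        exact mA
      · rw [Set.mem_ofPred_eq, hr4 _ _ zB]
        exact mY
      · rw [Set.mem_ofPred_eq, hr4 _ _ zC]
        exact mY1
    exact hsub ha


open Classical in
/-- The visible vertices, as a finite set. -/
noncomputable def VisF (p : Fin (n + 3) → ℂ) (w : List (Fin (n + 3))) : Finset ℂ :=
  (Finset.range (w.length + 1)).biUnion fun l => Finset.univ.image fun j => uf p (w.take l) (p j)

theorem Vis_sub (w : List (Fin (n + 3))) : Vis p w ⊆ VisF p w := by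
  rintro a ⟨u, hu, j, rfl⟩
  have h1 : u.length ≤ w.length := hu.length_le
  have h2 : u = w.take u.length := List.prefix_iff_eq_take.1 hu
  unfold VisF
  rw [Finset.mem_coe, Finset.mem_biUnion]
  refine ⟨u.length, Finset.mem_range.2 (by omega), ?_⟩
  rw [Finset.mem_image]
  exact ⟨j, Finset.mem_univ _, by rw [← h2]⟩

theorem VisF_card (w : List (Fin (n + 3))) : (VisF p w).card ≤ (w.length + 1) * (n + 3) := by
  unfold VisF
  refine (Finset.card_biUnion_le_card_mul _ _ (n + 3) fun l _ => ?_).trans ?_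
  · refine Finset.card_image_le.trans ?_
    simp
  · rw [Finset.card_range]

/-- The states for which vertices are visible in both thin triangles. -/
def BadW (p : Fin (n + 3) → ℂ) (K : ℕ) (T h : ℝ) : Set (ℂ × ℝ) :=
  {x | x.2 ∈ Ico 0 (2 * π) ∧ x.1 ∈ region p ∧
    (∃ w : List (Fin (n + 3)), w.length ≤ K ∧ Ch p w x.1 (x.1 + (-T) • dir x.2) ∧
      ∃ a ∈ Vis p w, a ∈ convexHull ℝ ({x.1 - T • dir x.2, x.1,
        x.1 + T • (dir (x.2 + h) - dir x.2)} : Set ℂ)) ∧
    (∃ w : List (Fin (n + 3)), w.length ≤ K ∧ Ch p w x.1 (x.1 + T • dir x.2) ∧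
      ∃ a ∈ Vis p w, a ∈ convexHull ℝ ({x.1 + T • dir x.2, x.1,
        x.1 + T • (dir x.2 - dir (x.2 - h))} : Set ℂ))}

open Classical in
theorem badW_meas (p : Fin (n + 3) → ℂ) (K : ℕ) (T h : ℝ) (hT : 0 < T) (hh : 0 < h)
    (hh1 : h ≤ 1) :
    volume (BadW p K T h) ≤ ENNReal.ofReal (((itin p K).ncard : ℝ) ^ 2 *
      ((2 * ((K : ℝ) + 1) * ((n : ℝ) + 3)) ^ 2 * (2 * π * T ^ 2 * h ^ 2))) := by
  have hpi := Real.pi_pos
  set F := (itin_finite (p := p) K).toFinset with hF
  have hFm : ∀ w, w ∈ F ↔ w ∈ itin p K := fun w => by rw [hF]; simp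
  have hFc : (F.card : ℝ) = ((itin p K).ncard : ℝ) := by
    rw [hF, ← Set.ncard_eq_toFinset_card _ (itin_finite _)]
  set b := ENNReal.ofReal ((2 * ((K : ℝ) + 1) * ((n : ℝ) + 3)) ^ 2 * (2 * π * T ^ 2 * h ^ 2))
    with hb
  have hsub : BadW p K T h ⊆ ⋃ w ∈ F, ⋃ w' ∈ F,
      Bad ((VisF p w ∪ VisF p w' : Finset ℂ) : Set ℂ) T h := by
    rintro x ⟨h1, h2, ⟨w, hw1, hw2, a, ha, ha'⟩, w', hw1', hw2', a', hb1, hb2⟩
    simp only [mem_iUnion]
    refine ⟨w, (hFm w).2 ⟨hw1, x.1, h2, _, hw2⟩, w', (hFm w').2 ⟨hw1', x.1, h2, _, hw2'⟩, h1,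
      ⟨a, ?_, ha'⟩, a', ?_, hb2⟩
    · rw [Finset.coe_union]
      exact Or.inl (Vis_sub w ha)
    · rw [Finset.coe_union]
      exact Or.inr (Vis_sub w' hb1)
  have hone : ∀ w ∈ F, ∀ w' ∈ F,
      volume (Bad ((VisF p w ∪ VisF p w' : Finset ℂ) : Set ℂ) T h) ≤ b := by
    intro w hw w' hw'
    refine (bad_quant _ T h hT hh hh1).trans ?_
    rw [hb]
    apply ENNReal.ofReal_le_ofReal
    have c1 : (VisF p w ∪ VisF p w').card ≤ 2 * ((K + 1) * (n + 3)) := by
      refine (Finset.card_union_le _ _).trans ?_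
      have d1 := VisF_card (p := p) w
      have d2 := VisF_card (p := p) w'
      have e1 : w.length ≤ K := ((hFm w).1 hw).1
      have e2 : w'.length ≤ K := ((hFm w').1 hw').1
      have f1 : (w.length + 1) * (n + 3) ≤ (K + 1) * (n + 3) :=
        Nat.mul_le_mul_right _ (by omega)
      have f2 : (w'.length + 1) * (n + 3) ≤ (K + 1) * (n + 3) :=
        Nat.mul_le_mul_right _ (by omega)
      omega
    have c2 : ((VisF p w ∪ VisF p w').card : ℝ) ≤ 2 * ((K : ℝ) + 1) * ((n : ℝ) + 3) := by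
      have : ((VisF p w ∪ VisF p w').card : ℝ) ≤ ((2 * ((K + 1) * (n + 3)) : ℕ) : ℝ) := by
        exact_mod_cast c1
      refine this.trans (le_of_eq ?_)
      push_cast
      ring
    gcongr
  calc volume (BadW p K T h) ≤ volume (⋃ w ∈ F, ⋃ w' ∈ F,
        Bad ((VisF p w ∪ VisF p w' : Finset ℂ) : Set ℂ) T h) := measure_mono hsub
    _ ≤ ∑ w ∈ F, volume (⋃ w' ∈ F, Bad ((VisF p w ∪ VisF p w' : Finset ℂ) : Set ℂ) T h) :=
        measure_biUnion_finset_le _ _
    _ ≤ ∑ w ∈ F, ∑ w' ∈ F, volume (Bad ((VisF p w ∪ VisF p w' : Finset ℂ) : Set ℂ) T h) :=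
        Finset.sum_le_sum fun w _ => measure_biUnion_finset_le _ _
    _ ≤ ∑ w ∈ F, ∑ w' ∈ F, b :=
        Finset.sum_le_sum fun w hw => Finset.sum_le_sum fun w' hw' => hone w hw w' hw'
    _ = ENNReal.ofReal (((itin p K).ncard : ℝ) ^ 2 *
      ((2 * ((K : ℝ) + 1) * ((n : ℝ) + 3)) ^ 2 * (2 * π * T ^ 2 * h ^ 2))) := by
        have hN0 : (0 : ℝ) ≤ F.card := F.card.cast_nonneg
        rw [Finset.sum_const, Finset.sum_const, ← hFc, sq (F.card : ℝ),
          mul_assoc (F.card : ℝ) (F.card : ℝ), ENNReal.ofReal_mul hN0,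
          ENNReal.ofReal_mul hN0, ENNReal.ofReal_natCast, nsmul_eq_mul, nsmul_eq_mul, ← hb]

end Pool.Agent.K3h17.BK
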