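import Pool.Agent.K3h17.BK.Cov

set_option autoImplicit false

/-!
Katok's theorem: the number of itineraries of length at most `k` grows subexponentially.
-/

namespace Pool.Agent.K3h17.BK

open Complex Set MeasureTheory Filter Topology Pool.Agent.W780.PG Pool.Agent.W780.BB
  Pool.Agent.TH225.BL

open scoped Real ComplexConjugate

variable {n : ℕ} {p : Fin (n + 3) → ℂ}

theorem poly_bound (p : Fin (n + 3) → ℂ) (m : ℕ) (hm : 1 ≤ m) :
    ((mb n m * db p m : ℕ) : ℝ) ≤ (2 * ((n : ℝ) + 4) * (3 + 4 * Rb p)) * (m : ℝ) ^ 2 := by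
  have hR := Rb_nonneg (p := p)
  have hm' : (1 : ℝ) ≤ m := by exact_mod_cast hm
  have hn : (0 : ℝ) ≤ n := n.cast_nonneg
  have h1 : (mb n m : ℝ) ≤ 2 * ((n : ℝ) + 4) * m := by
    unfold mb
    push_cast
    nlinarith
  have h2 : (db p m : ℝ) ≤ (3 + 4 * Rb p) * m := by
    unfold db
    push_cast
    have h3 : ((⌊2 * (1 + 2 * Rb p * m)⌋₊ : ℕ) : ℝ) ≤ 2 * (1 + 2 * Rb p * m) :=
      Nat.floor_le (by positivity)
    nlinarith
  push_cast
  calc (mb n m : ℝ) * db p m ≤ (2 * ((n : ℝ) + 4) * m) * ((3 + 4 * Rb p) * m) := by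
        gcongr
    _ = _ := by ring

theorem exists_m (p : Fin (n + 3) → ℂ) {ε : ℝ} (hε : 0 < ε) :
    ∃ m : ℕ, 1 ≤ m ∧ ((mb n m * db p m : ℕ) : ℝ) ≤ Real.exp (ε * m) := by
  set c := 2 * ((n : ℝ) + 4) * (3 + 4 * Rb p) with hc
  have hR := Rb_nonneg (p := p)
  have hn : (0 : ℝ) ≤ n := n.cast_nonneg
  have hc0 : 0 < c := by positivity
  have h1 := Real.tendsto_pow_mul_exp_neg_atTop_nhds_zero 2
  have h2 : Tendsto (fun m : ℕ => ε * (m : ℝ)) atTop atTop :=
    tendsto_natCast_atTop_atTop.const_mul_atTop hε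
  have h3 := h1.comp h2
  have h4 : ∀ᶠ m : ℕ in atTop, (ε * (m : ℝ)) ^ 2 * Real.exp (-(ε * m)) < ε ^ 2 / c :=
    h3.eventually (gt_mem_nhds (by positivity))
  obtain ⟨m, hm1, hm2⟩ := (h4.and (eventually_ge_atTop 1)).exists
  refine ⟨m, hm2, (poly_bound p m hm2).trans ?_⟩
  rw [← hc]
  rw [Real.exp_neg, ← div_eq_mul_inv, div_lt_div_iff₀ (Real.exp_pos _) hc0] at hm1
  have h5 : ε ^ 2 * (c * (m : ℝ) ^ 2) < ε ^ 2 * Real.exp (ε * m) := by
    calc ε ^ 2 * (c * (m : ℝ) ^ 2) = (ε * m) ^ 2 * c := by ring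
      _ < _ := hm1
  exact (lt_of_mul_lt_mul_left h5 (by positivity)).le

/-- Subexponential growth of the number of words. -/
theorem katok (hp : IsConvexPolygon p) {ε : ℝ} (hε : 0 < ε) :
    ∃ C : ℝ, 0 < C ∧ ∀ k : ℕ, ((words p k univ).ncard : ℝ) ≤ C * Real.exp (ε * k) := by
  obtain ⟨m, hm1, hm2⟩ := exists_m p hε
  obtain ⟨δ, hδ, -, hbox⟩ := box_count hp m
  set Q : ℕ := (⌊2 * π / δ⌋₊ + 1) * (⌊2 * Rb p / δ⌋₊ + 1) with hQ
  have hQ1 : 1 ≤ Q := Nat.succ_le_of_lt (by positivity)
  have hn3 : 1 ≤ n + 3 := by omega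
  refine ⟨Q * ((n : ℝ) + 3) ^ m, by positivity, fun k => ?_⟩
  rcases Nat.eq_zero_or_pos k with rfl | hk
  · have h1 := words_triv (p := p) 0 univ
    rw [pow_zero] at h1
    have h2 : ((words p 0 univ).ncard : ℝ) ≤ 1 := by exact_mod_cast h1
    refine h2.trans ?_
    rw [Nat.cast_zero, mul_zero, Real.exp_zero, mul_one]
    have h3 : (1 : ℝ) ≤ Q := by exact_mod_cast hQ1
    have h4 : (1 : ℝ) ≤ ((n : ℝ) + 3) ^ m := one_le_pow₀ (by
      have : (0 : ℝ) ≤ n := n.cast_nonneg
      linarith)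
    nlinarith
  · have h1 := words_pow hδ hbox (k % m) (k / m)
    rw [Nat.div_add_mod] at h1
    have h2 := words_all hδ hk h1
    have h3 : (((words p k univ).ncard : ℕ) : ℝ) ≤
        (Q : ℝ) * (((mb n m * db p m : ℕ) : ℝ) ^ (k / m) * ((n : ℝ) + 3) ^ (k % m)) := by
      have h4 : ((words p k univ).ncard : ℕ) ≤
          Q * ((mb n m * db p m) ^ (k / m) * (n + 3) ^ (k % m)) := by
        rw [hQ, mul_assoc]
        exact h2
      exact_mod_cast h4
    refine h3.trans ?_
    have h5 : ((mb n m * db p m : ℕ) : ℝ) ^ (k / m) ≤ Real.exp (ε * k) := by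
      calc ((mb n m * db p m : ℕ) : ℝ) ^ (k / m) ≤ (Real.exp (ε * m)) ^ (k / m) := by gcongr
        _ = Real.exp (ε * ((m * (k / m) : ℕ) : ℝ)) := by
          rw [← Real.exp_nat_mul]
          congr 1
          push_cast
          ring
        _ ≤ Real.exp (ε * k) := by
          apply Real.exp_le_exp.2
          have : ((m * (k / m) : ℕ) : ℝ) ≤ k := by exact_mod_cast Nat.mul_div_le k m
          gcongr
    have h6 : ((n : ℝ) + 3) ^ (k % m) ≤ ((n : ℝ) + 3) ^ m := by
      apply pow_le_pow_right₀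
      · have : (0 : ℝ) ≤ n := n.cast_nonneg
        linarith
      · exact (Nat.mod_lt _ (by omega)).le
    calc (Q : ℝ) * (((mb n m * db p m : ℕ) : ℝ) ^ (k / m) * ((n : ℝ) + 3) ^ (k % m)) ≤
        Q * (Real.exp (ε * k) * ((n : ℝ) + 3) ^ m) := by gcongr
      _ = _ := by ring

/-! ### Itineraries -/

/-- The itineraries of length at most `k`: the lists of sides met by the straight paths which start
in the polygon, after folding. -/
def itin (p : Fin (n + 3) → ℂ) (k : ℕ) : Set (List (Fin (n + 3))) :=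
  {w | w.length ≤ k ∧ ∃ z ∈ region p, ∃ A, Ch p w z A}

theorem itin_finite (k : ℕ) : (itin p k).Finite :=
  (List.finite_length_le (Fin (n + 3)) k).subset fun _ h => h.1

theorem side_of_cr (hp : IsConvexPolygon p) {i : Fin (n + 3)} {y : ℂ} (h0 : sf p i y = 0)
    (h : ∀ j, j ≠ i → 0 < sf p j y) : y ∈ side p i := by
  refine Pool.Agent.W174.PG.side_of hp i (fun j => ?_) h0 (fun k hk => ?_)
  · by_cases hj : j = i
    · rw [hj]; exact h0.ge
    · exact (h j hj).le
  · have h1 : sf p k y = 0 := by rw [hk]; exact Pool.Agent.W174.PG.lft_left _ _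
    have h2 : sf p (k - 1) y = 0 := by
      rw [hk]
      unfold sf
      rw [sub_add_cancel]
      exact Pool.Agent.W174.PG.lft_right _ _
    have h3 : k = i := by
      by_contra hne
      have := h k hne
      linarith
    have h4 : k - 1 = i := by
      by_contra hne
      have := h (k - 1) hne
      linarith
    have h5 : k - 1 = k := h4.trans h3.symm
    exact Pool.Agent.W174.PG.im k h5

theorem RW_of_Ch (hp : IsConvexPolygon p) (w : List (Fin (n + 3))) : ∀ (B A : ℂ) (x : ℝ × ℝ)
    (r : ℝ), 0 < r → ph x B = 0 → A = B + r • dir x.1 → Ch p w B A → RW p w x := by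
  obtain ⟨-, -, -, hr4, hr5, -⟩ := Pool.Agent.W347.BB.ref n p hp
  induction w with
  | nil => intro B A x r _ _ _ _; trivial
  | cons i w ih =>
    intro B A x r hr hB hA hch
    obtain ⟨h1, h2, h3, h4⟩ := hch
    set s := sf p i B / (sf p i B - sf p i A) with hs
    have hd : 0 < sf p i B - sf p i A := by linarith
    have hs0 : 0 < s := div_pos h1 hd
    have hs1 : s < 1 := by rw [hs, div_lt_one hd]; linarith
    have hy : cr p i B A = B + (s * r) • dir x.1 := by
      unfold cr
      rw [← hs, hA, add_sub_cancel_left, smul_smul]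
    have hphd : ∀ c : ℝ, ph x (B + c • dir x.1) = 0 := by
      intro c
      have e : conj (dir x.1) * (B + c • dir x.1) = conj (dir x.1) * B + (c : ℂ) := by
        have h2 : conj (dir x.1) * dir x.1 = 1 := by
          rw [dir_conj, dir_mul, neg_add_cancel]
          unfold dir
          simp
        rw [mul_add, real_smul]
        calc _ = conj (dir x.1) * B + (c : ℂ) * (conj (dir x.1) * dir x.1) := by ring
          _ = _ := by rw [h2, mul_one]
      unfold ph at hB ⊢
      rw [e, Complex.add_im, Complex.ofReal_im, add_zero]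
      exact hB
    have hy0 : sf p i (cr p i B A) = 0 := (Pool.Agent.W12.BB.Fan.cr_facts h1 h2).2
    have hyph : ph x (cr p i B A) = 0 := by rw [hy]; exact hphd _
    obtain ⟨a, b, ha, hb, hab, hab'⟩ := side_of_cr hp hy0 h3
    have hsl : ph x (p i) < ph x (p (i + 1)) := by
      have := sf_dir (p := p) i x B r
      rw [← hA] at this
      by_contra hcon
      push Not at hcon
      have : 0 ≤ - (r * (ph x (p (i + 1)) - ph x (p i))) := by
        rw [← mul_neg]
        exact mul_nonneg hr.le (by linarith)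
      linarith
    have hcomb : a * ph x (p i) + b * ph x (p (i + 1)) = 0 := by
      have h5 := ph_comb x (p i) (p (i + 1)) b
      rw [show 1 - b = a by linarith, hab', hyph] at h5
      linarith
    have h6 : rf p i (cr p i B A) = cr p i B A := hr4 _ _ hy0
    refine ⟨?_, ?_, ih (cr p i B A) (rf p i A) (fl p i x) ((1 - s) * r)
      (mul_pos (by linarith) hr) ?_ ?_ h4⟩
    · by_contra hcon
      push Not at hcon
      have : 0 < b * ph x (p (i + 1)) := mul_pos hb (by linarith)
      have := mul_nonneg ha.le hcon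
      linarith
    · by_contra hcon
      push Not at hcon
      have : a * ph x (p i) < 0 := mul_neg_of_pos_of_neg ha (by linarith)
      have := mul_nonpos_of_nonneg_of_nonpos hb.le hcon
      linarith
    · have := ph_fl (p := p) i x (cr p i B A)
      rw [h6, hyph, neg_zero] at this
      exact this
    · have hA2 : A = cr p i B A + ((1 - s) * r) • dir x.1 := by
        rw [hy, hA, add_assoc, ← add_smul]
        congr 2
        ring
      conv_lhs => rw [hA2, hr5, h6]
      rfl

theorem itin_RW (hp : IsConvexPolygon p) {w : List (Fin (n + 3))} {z A : ℂ}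
    (h : Ch p w z A) : ∃ x, RW p w x := by
  cases w with
  | nil => exact ⟨(0, 0), trivial⟩
  | cons i w =>
    have hne : A - z ≠ 0 := by
      intro h0
      have h1 : A = z := sub_eq_zero.1 h0
      obtain ⟨h2, h3, -⟩ := h
      rw [h1] at h3
      linarith
    refine ⟨(arg (A - z), (conj (dir (arg (A - z))) * z).im),
      RW_of_Ch hp _ z A _ ‖A - z‖ (norm_pos_iff.2 hne) (by unfold ph; simp) ?_ h⟩
    unfold dir
    rw [Complex.real_smul, Complex.norm_mul_exp_arg_mul_I]
    ring

open Classical in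
/-- **Katok's theorem** for convex polygons. -/
theorem katok_itin (hp : IsConvexPolygon p) {ε : ℝ} (hε : 0 < ε) :
    ∃ C : ℝ, 0 < C ∧ ∀ k : ℕ, ((itin p k).ncard : ℝ) ≤ C * Real.exp (ε * k) := by
  obtain ⟨C, hC, h⟩ := katok hp (half_pos hε)
  refine ⟨C * (2 / ε) * Real.exp (ε / 2), by positivity, fun k => ?_⟩
  have hsub : itin p k ⊆ (((Finset.range (k + 1)).biUnion fun l =>
      (words_finite (p := p) l univ).toFinset : Finset _) : Set (List (Fin (n + 3)))) := by
    rintro w ⟨hw, z, hz, A, hch⟩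
    rw [Finset.mem_coe, Finset.mem_biUnion]
    refine ⟨w.length, Finset.mem_range.2 (by omega), ?_⟩
    rw [Set.Finite.mem_toFinset]
    obtain ⟨x, hx⟩ := itin_RW hp hch
    exact ⟨rfl, x, mem_univ _, hx⟩
  have h1 := Set.ncard_le_ncard hsub (Finset.finite_toSet _)
  rw [Set.ncard_coe_finset] at h1
  have h2 : ((itin p k).ncard : ℝ) ≤ ∑ l ∈ Finset.range (k + 1), C * Real.exp (ε / 2 * l) := by
    have h3 := h1.trans Finset.card_biUnion_le
    have h4 : ((itin p k).ncard : ℝ) ≤ ∑ l ∈ Finset.range (k + 1),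
        ((words_finite (p := p) l univ).toFinset.card : ℝ) := by exact_mod_cast h3
    refine h4.trans (Finset.sum_le_sum fun l _ => ?_)
    rw [← Set.ncard_eq_toFinset_card _ (words_finite _ _)]
    exact h l
  have h5 : ∑ l ∈ Finset.range (k + 1), C * Real.exp (ε / 2 * l) ≤
      (k + 1) * (C * Real.exp (ε / 2 * k)) := by
    have := Finset.sum_le_card_nsmul (Finset.range (k + 1)) (fun l => C * Real.exp (ε / 2 * l))
      (C * Real.exp (ε / 2 * k)) (fun l hl => by
        have : l ≤ k := by rw [Finset.mem_range] at hl; omega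
        gcongr)
    rw [Finset.card_range, nsmul_eq_mul] at this
    push_cast at this
    exact this
  have h6 : ((k : ℝ) + 1) ≤ (2 / ε) * Real.exp (ε / 2 * (k + 1)) := by
    have := Real.add_one_le_exp (ε / 2 * (k + 1))
    have h7 : ε / 2 * ((k : ℝ) + 1) ≤ Real.exp (ε / 2 * (k + 1)) := by linarith
    calc ((k : ℝ) + 1) = (2 / ε) * (ε / 2 * (k + 1)) := by field_simp
      _ ≤ _ := by gcongr
  calc ((itin p k).ncard : ℝ) ≤ (k + 1) * (C * Real.exp (ε / 2 * k)) := h2.trans h5
    _ ≤ ((2 / ε) * Real.exp (ε / 2 * (k + 1))) * (C * Real.exp (ε / 2 * k)) := by gcongr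
    _ = C * (2 / ε) * (Real.exp (ε / 2 * (k + 1)) * Real.exp (ε / 2 * k)) := by ring
    _ = C * (2 / ε) * (Real.exp (ε / 2) * Real.exp (ε * k)) := by
        rw [← Real.exp_add, ← Real.exp_add]
        congr 2
        ring
    _ = _ := by ring

end Pool.Agent.K3h17.BK
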