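import Pool.Agent.K3h17.BK.Est2

set_option autoImplicit false

/-!
Invariant sets whose directional perimeter is small compared with the complexity of the billiard.
-/

namespace Pool.Agent.K3h17.BK

open Complex Set MeasureTheory Filter Topology Pool.Agent.W780.PG Pool.Agent.W780.BB
  Pool.Agent.TH225.BL

open scoped Real ComplexConjugate

/-- The measure of the set of states whose membership in `A` changes when the direction is turned
by `h`. -/
noncomputable def om {n : ℕ} (p : Fin (n + 3) → ℂ) (A : Set (ℂ × ℝ)) (h : ℝ) : ENNReal :=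
  volume {x : ℂ × ℝ | x ∈ phase p ∧ ¬ (x ∈ A ↔ (x.1, x.2 + h) ∈ A)}

/-- For every `ε` there are arbitrarily small `h` and a `k` with `c(k)² k³ h ≤ ε` and
`ω(h) ≤ ε k h`, where `c(k)` is the number of itineraries of length at most `k`. -/
def SmallPerimeter {n : ℕ} (p : Fin (n + 3) → ℂ) (A : Set (ℂ × ℝ)) : Prop :=
  ∀ ε : ℝ, 0 < ε → ∃ᶠ h : ℝ in 𝓝[>] 0, ∃ k : ℕ,
    ((itin p k).ncard : ℝ) ^ 2 * (k : ℝ) ^ 3 * h ≤ ε ∧ om p A h ≤ ENNReal.ofReal (ε * (k * h))

theorem itin_pos {n : ℕ} {p : Fin (n + 3) → ℂ} (hp : IsConvexPolygon p) (k : ℕ) :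
    1 ≤ (itin p k).ncard := by
  have hB : S_Basic := Pool.Agent.W174.PG.basic
  have hH : S_Hull := Pool.Agent.W975.PG.hull hB
  obtain ⟨z, hz⟩ := (hB n p hp).2.2.2.2.2.1
  have hne : (itin p k).Nonempty :=
    ⟨[], Nat.zero_le _, z, by rw [(hH n p hp).2]; exact hz, z, hz⟩
  exact Nat.succ_le_of_lt ((Set.ncard_pos (itin_finite k)).2 hne)

theorem itin_mono {n : ℕ} {p : Fin (n + 3) → ℂ} {k l : ℕ} (h : k ≤ l) :
    (itin p k).ncard ≤ (itin p l).ncard :=
  Set.ncard_le_ncard (fun _ hw => ⟨hw.1.trans h, hw.2⟩) (itin_finite l)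

/-- The numerical part. -/
theorem numbers2 (m τ δ K c ε h T : ℝ) (v : ENNReal) (k : ℕ) (hm : 0 ≤ m) (hτ : 0 < τ)
    (hδ : 0 < δ) (hK : 1 ≤ K) (hc : 0 ≤ c) (hε : 0 < ε) (hh : 0 < h) (hh1 : h ≤ 1)
    (hT0 : 0 < T) (hT : T ≤ τ * K)
    (hk : (k : ℝ) ≤ 2 * δ / (τ * K * Real.sin h))
    (hsmall : c ^ 2 * K ^ 3 * h ≤ ε)
    (hv : v ≤ k * (ENNReal.ofReal (c ^ 2 * ((2 * (K + 1) * m) ^ 2 * (2 * π * T ^ 2 * h ^ 2))) +
      6 * ENNReal.ofReal (ε * (K * h)))) :
    v ≤ ENNReal.ofReal ((32 * π ^ 2 * δ * τ * m ^ 2 + 6 * π * δ / τ) * ε) := by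
  have hpi := Real.pi_pos
  have hK0 : 0 < K := by linarith
  have hsin : 2 / π * h ≤ Real.sin h := Real.mul_le_sin hh.le (by
    have := Real.pi_gt_three; linarith)
  have hsin0 : 0 < Real.sin h := lt_of_lt_of_le (by positivity) hsin
  have hk2 : (k : ℝ) ≤ π * δ / (τ * K * h) := by
    refine hk.trans ?_
    rw [div_le_div_iff₀ (by positivity) (by positivity)]
    calc 2 * δ * (τ * K * h) = π * δ * (τ * K * (2 / π * h)) := by field_simp
      _ ≤ π * δ * (τ * K * Real.sin h) := by gcongr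
  have hA : c ^ 2 * ((2 * (K + 1) * m) ^ 2 * (2 * π * T ^ 2 * h ^ 2)) ≤
      c ^ 2 * ((2 * (K + K) * m) ^ 2 * (2 * π * (τ * K) ^ 2 * h ^ 2)) := by
    gcongr
  have hk0 : (0 : ℝ) ≤ k := k.cast_nonneg
  calc v ≤ k * (ENNReal.ofReal (c ^ 2 * ((2 * (K + 1) * m) ^ 2 * (2 * π * T ^ 2 * h ^ 2))) +
      6 * ENNReal.ofReal (ε * (K * h))) := hv
    _ = ENNReal.ofReal (k * (c ^ 2 * ((2 * (K + 1) * m) ^ 2 * (2 * π * T ^ 2 * h ^ 2)) +
        6 * (ε * (K * h)))) := by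
        rw [ENNReal.ofReal_mul hk0, ENNReal.ofReal_add (by positivity) (by positivity),
          ENNReal.ofReal_mul (by norm_num : (0 : ℝ) ≤ 6), ENNReal.ofReal_natCast]
        norm_num
    _ ≤ ENNReal.ofReal ((32 * π ^ 2 * δ * τ * m ^ 2 + 6 * π * δ / τ) * ε) := by
        apply ENNReal.ofReal_le_ofReal
        calc (k : ℝ) * (c ^ 2 * ((2 * (K + 1) * m) ^ 2 * (2 * π * T ^ 2 * h ^ 2)) +
              6 * (ε * (K * h)))
            ≤ π * δ / (τ * K * h) *
              (c ^ 2 * ((2 * (K + K) * m) ^ 2 * (2 * π * (τ * K) ^ 2 * h ^ 2)) +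
                6 * (ε * (K * h))) := by gcongr
          _ = 32 * π ^ 2 * δ * τ * m ^ 2 * (c ^ 2 * K ^ 3 * h) + 6 * π * δ / τ * ε := by
              field_simp
              ring
          _ ≤ 32 * π ^ 2 * δ * τ * m ^ 2 * ε + 6 * π * δ / τ * ε := by gcongr
          _ = _ := by ring

/-- Small transversal translations do not change the set. -/
theorem lim2 {n : ℕ} {p : Fin (n + 3) → ℂ} (hp : IsConvexPolygon p) (S : Set (ℂ × ℝ))
    (hS : MeasurableSet S) (hI : IsInvariant p S) (hF : SmallPerimeter p S)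
    (η δ : ℝ) (hδ : 0 < δ) (hδη : δ < η) :
    volume {x : ℂ × ℝ | x ∈ phase p ∧ Metric.closedBall x.1 (2 * η) ⊆ reg p ∧
        ¬ (x ∈ S ↔ (x.1 + δ • (I * dir x.2), x.2) ∈ S)} = 0 := by
  have hB : S_Basic := Pool.Agent.W174.PG.basic
  have hHull : S_Hull := Pool.Agent.W975.PG.hull hB
  have hreg : region p = reg p := (hHull n p hp).2
  have hη : 0 < η := hδ.trans hδη
  have hpi := Real.pi_pos
  obtain ⟨N, d, hd, hex⟩ := exist_lin n p hp
  obtain ⟨τ, hτ⟩ : ∃ τ, τ = d / (2 * ((N : ℝ) + 1)) := ⟨_, rfl⟩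
  have hN0 : (0 : ℝ) ≤ N := N.cast_nonneg
  have hτ0 : 0 < τ := by rw [hτ]; positivity
  obtain ⟨m, hm⟩ : ∃ m : ℝ, m = (n : ℝ) + 3 := ⟨_, rfl⟩
  have hm0 : 0 ≤ m := by rw [hm]; positivity
  set D := 32 * π ^ 2 * δ * τ * m ^ 2 + 6 * π * δ / τ with hD
  have key : ∀ ε : ℝ, 0 < ε → τ * ε < min η δ → volume (Pool.Agent.W396.BB.DD p S (2 * η) δ) ≤
      ENNReal.ofReal (D * ε) := by
    intro ε hε hετ
    set K₀ : ℕ := 2 * (N + 1) with hK₀
    have hK₀1 : 1 ≤ K₀ := by omega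
    set c₀ : ℝ := ((itin p K₀).ncard : ℝ) ^ 2 * (K₀ : ℝ) ^ 3 with hc₀
    have hitp : (1 : ℝ) ≤ ((itin p K₀).ncard : ℝ) := by exact_mod_cast itin_pos hp K₀
    have hK₀R : (1 : ℝ) ≤ K₀ := by exact_mod_cast hK₀1
    have hc₀0 : 0 < c₀ := by positivity
    have e1 : ∀ᶠ h in 𝓝[>] (0 : ℝ), h < 1 := by
      filter_upwards [Ioo_mem_nhdsGT (zero_lt_one : (0 : ℝ) < 1)] with h hh using hh.2
    have e2 : ∀ᶠ h in 𝓝[>] (0 : ℝ), h < ε / c₀ := by
      filter_upwards [Ioo_mem_nhdsGT (div_pos hε hc₀0)] with h hh using hh.2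
    obtain ⟨h, ⟨k0, hk01, hk02⟩, hh1, hhc, hh0⟩ := ((hF ε hε).and_eventually
      (e1.and (e2.and self_mem_nhdsWithin))).exists
    have hh : 0 < h := hh0
    rw [lt_div_iff₀ hc₀0] at hhc
    -- the number of reflections
    obtain ⟨K, hK1, hK2, hK3⟩ : ∃ K : ℕ, K₀ ≤ K ∧
        ((itin p K).ncard : ℝ) ^ 2 * (K : ℝ) ^ 3 * h ≤ ε ∧
        om p S h ≤ ENNReal.ofReal (ε * (K * h)) := by
      rcases le_total k0 K₀ with hle | hle
      · refine ⟨K₀, le_rfl, by rw [← hc₀]; linarith, hk02.trans ?_⟩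
        apply ENNReal.ofReal_le_ofReal
        have : (k0 : ℝ) ≤ K₀ := by exact_mod_cast hle
        gcongr
      · exact ⟨k0, hle, hk01, hk02⟩
    have hKR : (K₀ : ℝ) ≤ K := by exact_mod_cast hK1
    have hKR1 : (1 : ℝ) ≤ K := hK₀R.trans hKR
    have hcK : (1 : ℝ) ≤ ((itin p K).ncard : ℝ) := by exact_mod_cast itin_pos hp K
    have hKh : (K : ℝ) * h ≤ ε := by
      refine le_trans ?_ hK2
      have h1 : (1 : ℝ) ≤ ((itin p K).ncard : ℝ) ^ 2 := one_le_pow₀ hcK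
      have h2 : (K : ℝ) ≤ (K : ℝ) ^ 3 := by
        have : (1 : ℝ) ≤ (K : ℝ) ^ 2 := one_le_pow₀ hKR1
        nlinarith
      have h3 : (K : ℝ) ≤ ((itin p K).ncard : ℝ) ^ 2 * (K : ℝ) ^ 3 := by nlinarith
      exact mul_le_mul_of_nonneg_right h3 hh.le
    obtain ⟨T', hT'⟩ : ∃ T', T' = τ * K := ⟨_, rfl⟩
    have hT'0 : 0 < T' := by rw [hT']; positivity
    have hT'h : T' * h < min η δ := by
      rw [hT']
      calc τ * K * h = τ * (K * h) := by ring
        _ ≤ τ * ε := by gcongr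
        _ < _ := hετ
    have hsin1 : Real.sin h ≤ h := Real.sin_le hh.le
    have hsin0 : 0 < Real.sin h := Real.sin_pos_of_pos_of_lt_pi hh (by
      have := Real.pi_gt_three; linarith)
    obtain ⟨k, hk⟩ : ∃ k, k = ⌈δ / (T' * Real.sin h)⌉₊ := ⟨_, rfl⟩
    have hq0 : 0 < δ / (T' * Real.sin h) := by positivity
    have hk0 : 0 < k := by rw [hk]; exact Nat.ceil_pos.2 hq0
    have hk1 : δ / (T' * Real.sin h) ≤ k := by rw [hk]; exact Nat.le_ceil _
    have hk2 : (k : ℝ) < δ / (T' * Real.sin h) + 1 := by rw [hk]; exact Nat.ceil_lt_add_one hq0.le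
    have hkR : (0 : ℝ) < k := by exact_mod_cast hk0
    have hTδ : T' * Real.sin h ≤ δ := by
      have : T' * Real.sin h ≤ T' * h := by gcongr
      have h2 := min_le_right η δ
      linarith
    have hk3 : (k : ℝ) ≤ 2 * δ / (T' * Real.sin h) := by
      have h1 : 1 ≤ δ / (T' * Real.sin h) := by rw [le_div_iff₀ (by positivity)]; linarith
      calc (k : ℝ) ≤ δ / (T' * Real.sin h) + 1 := hk2.le
        _ ≤ δ / (T' * Real.sin h) + δ / (T' * Real.sin h) := by gcongr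
        _ = 2 * δ / (T' * Real.sin h) := by ring
    obtain ⟨T, hT⟩ : ∃ T, T = δ / (k * Real.sin h) := ⟨_, rfl⟩
    have hT0 : 0 < T := by rw [hT]; positivity
    have hTT : T ≤ T' := by
      rw [hT, div_le_iff₀ (by positivity)]
      rw [div_le_iff₀ (by positivity)] at hk1
      calc δ ≤ k * (T' * Real.sin h) := hk1
        _ = T' * (k * Real.sin h) := by ring
    have hTs : T * Real.sin h = δ / k := by rw [hT]; field_simp
    have hTh : T * h < η := by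
      calc T * h ≤ T' * h := by gcongr
        _ < min η δ := hT'h
        _ ≤ η := min_le_left _ _
    -- the number of reflections in the time `T`
    have hNK : N * (⌊T / d⌋₊ + 1) + 1 ≤ K := by
      have h1 : ((⌊T / d⌋₊ : ℕ) : ℝ) ≤ T / d := Nat.floor_le (by positivity)
      have h2 : T / d ≤ K / (2 * ((N : ℝ) + 1)) := by
        rw [div_le_iff₀ hd]
        calc T ≤ τ * K := by rw [← hT']; exact hTT
          _ = K / (2 * ((N : ℝ) + 1)) * d := by rw [hτ]; ring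
      have h3 : (N : ℝ) * ((⌊T / d⌋₊ : ℕ) : ℝ) ≤ K / 2 := by
        calc (N : ℝ) * ((⌊T / d⌋₊ : ℕ) : ℝ) ≤ N * (K / (2 * ((N : ℝ) + 1))) := by
              gcongr
              exact h1.trans h2
          _ ≤ ((N : ℝ) + 1) * (K / (2 * ((N : ℝ) + 1))) := by
              gcongr
              linarith
          _ = K / 2 := by field_simp
      have h4 : (K₀ : ℝ) = 2 * ((N : ℝ) + 1) := by rw [hK₀]; push_cast; ring
      have h5 : ((N * (⌊T / d⌋₊ + 1) + 1 : ℕ) : ℝ) ≤ K := by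
        push_cast
        linarith
      exact_mod_cast h5
    have hexK : ∀ z ∈ reg p, ∀ A : ℂ, ‖A - z‖ ≤ T →
        (∀ w j, uf p w (p j) ∉ segment ℝ z A) → (∀ w i, sf p i (fp p w A) ≠ 0) →
        ∃ w : List (Fin (n + 3)), w.length ≤ K ∧ Ch p w z A := by
      intro z hz A h1 h2 h3
      obtain ⟨w, hw1, hw2⟩ := hex T z hz A h1 h2 h3
      exact ⟨w, hw1.trans hNK, hw2⟩
    have hest := est2 hp S hS hI K T η h hT0 hh hTh hexK
    rw [hTs] at hest
    have hbad := badW_meas p K T h hT0 hh hh1.le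
    have hDD := Pool.Agent.W396.BB.DD_meas hreg S hδ hδη hk0
    refine numbers2 m τ δ K ((itin p K).ncard : ℝ) ε h T _ k hm0 hτ0 hδ hKR1 (by linarith) hε hh
      hh1.le hT0 (by rw [← hT']; exact hTT) (by rw [← hT']; exact hk3) hK2 ?_
    refine hDD.trans ?_
    gcongr
    refine (le_of_eq rfl).trans (hest.trans ?_)
    rw [hm]
    gcongr
    exact hK3
  show volume (Pool.Agent.W396.BB.DD p S (2 * η) δ) = 0
  have hlim : Tendsto (fun ε : ℝ => ENNReal.ofReal (D * ε)) (𝓝[>] 0) (𝓝 0) := by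
    have h1 : Tendsto (fun ε : ℝ => D * ε) (𝓝 0) (𝓝 (D * 0)) :=
      tendsto_const_nhds.mul tendsto_id
    rw [mul_zero] at h1
    have := (ENNReal.continuous_ofReal.tendsto 0).comp h1
    rw [ENNReal.ofReal_zero] at this
    exact this.mono_left nhdsWithin_le_nhds
  refine le_antisymm ?_ zero_le
  refine ge_of_tendsto hlim ?_
  have hmin : 0 < min η δ := lt_min hη hδ
  filter_upwards [self_mem_nhdsWithin, Ioo_mem_nhdsGT (div_pos hmin hτ0)] with ε hε hε2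
  refine key ε hε ?_
  have := hε2.2
  rw [lt_div_iff₀ hτ0] at this
  linarith

end Pool.Agent.K3h17.BK
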