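import Pool.Agent.TH225.BL.Slow

set_option autoImplicit false

/-!
Oriented lines and the words of sides which they cross in the unfolded polygon.

The line `x = (θ, s)` is the set of the points `z` with `ph x z = 0`; it is directed by `dir θ`.
-/

namespace Pool.Agent.K3h17.BK

open Complex Set MeasureTheory Filter Topology Pool.Agent.W780.PG Pool.Agent.W780.BB

open scoped Real ComplexConjugate

variable {n : ℕ} {p : Fin (n + 3) → ℂ}

/-- The signed distance of the point `z` from the line `x`, positive on the left. -/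
noncomputable def ph (x : ℝ × ℝ) (z : ℂ) : ℝ := (conj (dir x.1) * z).im - x.2

/-- The coordinate along the line `x`. -/
noncomputable def tt (x : ℝ × ℝ) (z : ℂ) : ℝ := (conj (dir x.1) * z).re

/-- The reflected line. -/
noncomputable def fl (p : Fin (n + 3) → ℂ) (i : Fin (n + 3)) (x : ℝ × ℝ) : ℝ × ℝ :=
  (2 * tau p i - x.1,
    (conj (dir x.1) * p i).im + (conj (dir (2 * tau p i - x.1)) * p i).im - x.2)

/-- The line reflected along a word. -/
noncomputable def fw (p : Fin (n + 3) → ℂ) : List (Fin (n + 3)) → ℝ × ℝ → ℝ × ℝ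
  | [], x => x
  | i :: w, x => fw p w (fl p i x)

/-- The line `x` crosses, after folding, the sides in the list, in this order. -/
def RW (p : Fin (n + 3) → ℂ) : List (Fin (n + 3)) → ℝ × ℝ → Prop
  | [], _ => True
  | i :: w, x => ph x (p i) < 0 ∧ 0 < ph x (p (i + 1)) ∧ RW p w (fl p i x)

/-- The weak form of `RW`. -/
def WW (p : Fin (n + 3) → ℂ) : List (Fin (n + 3)) → ℝ × ℝ → Prop
  | [], _ => True
  | i :: w, x => ph x (p i) ≤ 0 ∧ 0 ≤ ph x (p (i + 1)) ∧ WW p w (fl p i x)

theorem dir_conj (θ : ℝ) : conj (dir θ) = dir (-θ) := by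
  unfold dir
  rw [← exp_conj]
  congr 1
  simp

theorem dir_mul (θ φ : ℝ) : dir θ * dir φ = dir (θ + φ) := by
  unfold dir
  rw [← Complex.exp_add]
  congr 1
  push_cast
  ring

theorem rf_formula (i : Fin (n + 3)) (x : ℝ) (z : ℂ) :
    conj (dir (2 * tau p i - x)) * rf p i z =
      conj (dir (2 * tau p i - x)) * p i + conj (conj (dir x) * (z - p i)) := by
  unfold rf
  rw [mul_add, map_mul, Complex.conj_conj, ← mul_assoc, dir_conj, dir_mul]
  congr 3
  ring

theorem ph_fl (i : Fin (n + 3)) (x : ℝ × ℝ) (z : ℂ) :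
    ph (fl p i x) (rf p i z) = - ph x z := by
  unfold ph fl
  rw [rf_formula]
  simp only [Complex.add_im, Complex.conj_im, mul_sub, Complex.sub_im]
  ring

theorem tt_fl (i : Fin (n + 3)) (x : ℝ × ℝ) (z z' : ℂ) :
    tt (fl p i x) (rf p i z) - tt (fl p i x) (rf p i z') = tt x z - tt x z' := by
  unfold tt fl
  simp only []
  rw [rf_formula, rf_formula]
  simp only [Complex.add_re, Complex.conj_re, mul_sub, Complex.sub_re]
  ring

theorem ph_fw (hr : ∀ i z, rf p i (rf p i z) = z) (u : List (Fin (n + 3))) :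
    ∀ (x : ℝ × ℝ) (y : ℂ), ph (fw p u x) y = (-1) ^ u.length * ph x (uf p u y) := by
  induction u with
  | nil => intro x y; simp [fw, uf]
  | cons i u ih =>
    intro x y
    rw [fw, ih, uf, List.length_cons, pow_succ]
    have h := ph_fl (p := p) i x (rf p i (uf p u y))
    rw [hr] at h
    rw [h]
    ring

theorem tt_fw (hr : ∀ i z, rf p i (rf p i z) = z) (u : List (Fin (n + 3))) :
    ∀ (x : ℝ × ℝ) (y y' : ℂ),
      tt (fw p u x) y - tt (fw p u x) y' = tt x (uf p u y) - tt x (uf p u y') := by
  induction u with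
  | nil => intro x y y'; simp [fw, uf]
  | cons i u ih =>
    intro x y y'
    rw [fw, ih, uf, uf]
    have h := tt_fl (p := p) i x (rf p i (uf p u y)) (rf p i (uf p u y'))
    rw [hr, hr] at h
    exact h

theorem fw_append (u v : List (Fin (n + 3))) : ∀ x : ℝ × ℝ,
    fw p (u ++ v) x = fw p v (fw p u x) := by
  induction u with
  | nil => intro x; rfl
  | cons i u ih => intro x; rw [List.cons_append, fw, ih, fw]

theorem RW_append (u v : List (Fin (n + 3))) : ∀ x : ℝ × ℝ,
    RW p (u ++ v) x ↔ RW p u x ∧ RW p v (fw p u x) := by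
  induction u with
  | nil => intro x; simp [RW, fw]
  | cons i u ih => intro x; rw [List.cons_append, RW, RW, ih, fw]; tauto

theorem uf_append (u v : List (Fin (n + 3))) (y : ℂ) :
    uf p (u ++ v) y = uf p u (uf p v y) := by
  induction u with
  | nil => rfl
  | cons i u ih => rw [List.cons_append, uf, ih, uf]

/-- Points on a line in terms of the coordinate. -/
theorem on_line {x : ℝ × ℝ} {y z : ℂ} (hy : ph x y = 0) (hz : ph x z = 0) :
    z = y + (tt x z - tt x y) • dir x.1 := by
  have h1 : conj (dir x.1) * (z - y) = ((tt x z - tt x y : ℝ) : ℂ) := by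
    apply Complex.ext
    · rw [mul_sub, Complex.sub_re, Complex.ofReal_re]
      rfl
    · rw [mul_sub, Complex.sub_im, Complex.ofReal_im]
      unfold ph at hy hz
      linarith
  have h2 : dir x.1 * conj (dir x.1) = 1 := by
    rw [dir_conj, dir_mul, add_neg_cancel]
    unfold dir
    simp
  have h3 : z - y = dir x.1 * (conj (dir x.1) * (z - y)) := by
    rw [← mul_assoc, h2, one_mul]
  rw [h1] at h3
  rw [real_smul, mul_comm, ← h3]
  ring

theorem sf_dir (i : Fin (n + 3)) (x : ℝ × ℝ) (y : ℂ) (r : ℝ) :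
    sf p i (y + r • dir x.1) = sf p i y - r * (ph x (p (i + 1)) - ph x (p i)) := by
  unfold sf lft ph
  have h : (conj (p (i + 1) - p i) * dir x.1).im = - (conj (dir x.1) * (p (i + 1) - p i)).im := by
    have : conj (p (i + 1) - p i) * dir x.1 = conj (conj (dir x.1) * (p (i + 1) - p i)) := by
      rw [map_mul, Complex.conj_conj, mul_comm]
    rw [this, Complex.conj_im]
  have e : conj (p (i + 1) - p i) * (y + r • dir x.1 - p i) =
      conj (p (i + 1) - p i) * (y - p i) + (r : ℂ) * (conj (p (i + 1) - p i) * dir x.1) := by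
    rw [real_smul]
    ring
  have h' : (conj (dir x.1) * (p (i + 1) - p i)).im =
      (conj (dir x.1) * p (i + 1)).im - (conj (dir x.1) * p i).im := by
    rw [mul_sub, Complex.sub_im]
  rw [e, Complex.add_im, Complex.im_ofReal_mul, h, h']
  ring

theorem sf_on_line {x : ℝ × ℝ} {y z : ℂ} (i : Fin (n + 3)) (hy : ph x y = 0) (hz : ph x z = 0) :
    sf p i z = sf p i y - (tt x z - tt x y) * (ph x (p (i + 1)) - ph x (p i)) := by
  conv_lhs => rw [on_line hy hz]
  exact sf_dir i x y _

theorem ph_comb (x : ℝ × ℝ) (a b : ℂ) (s : ℝ) :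
    ph x ((1 - s) • a + s • b) = (1 - s) * ph x a + s * ph x b := by
  unfold ph
  have : conj (dir x.1) * ((1 - s) • a + s • b) =
      ((1 - s : ℝ) : ℂ) * (conj (dir x.1) * a) + (s : ℂ) * (conj (dir x.1) * b) := by
    rw [real_smul, real_smul]
    ring
  rw [this, Complex.add_im, Complex.im_ofReal_mul, Complex.im_ofReal_mul]
  ring

/-- The order in which the unfolded vertices on a line are met. -/
theorem ord (hp : IsConvexPolygon p) (i : Fin (n + 3)) : ∀ (v : List (Fin (n + 3))) (x : ℝ × ℝ)
    (y : ℂ), WW p (v ++ [i]) x → ph x y = 0 → (∀ j, 0 ≤ sf p j y) → ∀ l, l ≠ i → l ≠ i + 1 →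
    ph x (uf p (v ++ [i]) (p l)) = 0 → tt x y < tt x (uf p (v ++ [i]) (p l)) := by
  obtain ⟨hr1, -, hr3, hr4, -⟩ := Pool.Agent.W347.BB.ref n p hp
  intro v
  induction v with
  | nil =>
    intro x y hW hy hyc l h1 h2 hz
    rw [List.nil_append] at hW hz ⊢
    obtain ⟨hW1, hW2, -⟩ := hW
    have e : uf p [i] (p l) = rf p i (p l) := rfl
    rw [e] at hz ⊢
    have h3 := sf_on_line (p := p) i hy hz
    have h4 : 0 < sf p i (p l) := hp.pos i l h1 h2
    rw [hr3] at h3
    have h5 := hyc i
    by_contra hcon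
    push Not at hcon
    have h6 : (tt x (rf p i (p l)) - tt x y) * (ph x (p (i + 1)) - ph x (p i)) ≤ 0 :=
      mul_nonpos_of_nonpos_of_nonneg (by linarith) (by linarith)
    linarith
  | cons k v ih =>
    intro x y hW hy hyc l h1 h2 hz
    rw [List.cons_append] at hW hz ⊢
    obtain ⟨hW1, hW2, hW3⟩ := hW
    rw [uf] at hz ⊢
    set z₁ := uf p (v ++ [i]) (p l) with hz₁
    have hz1 : ph (fl p k x) z₁ = 0 := by
      have := ph_fl (p := p) k x (rf p k z₁)
      rw [hr1, hz, neg_zero] at this
      exact this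
    -- the next point
    obtain ⟨y', hy1, hy2, hy3, hy4⟩ : ∃ y', ph x y' = 0 ∧ sf p k y' = 0 ∧
        (∀ j, 0 ≤ sf p j y') ∧ tt x y ≤ tt x y' := by
      rcases (show 0 ≤ ph x (p (k + 1)) - ph x (p k) by linarith).eq_or_lt with h0 | h0
      · -- the line contains the side
        have e1 : ph x (p k) = 0 := by linarith
        refine ⟨y, hy, ?_, hyc, le_rfl⟩
        have h3 := sf_on_line (p := p) k e1 hy
        rw [← h0, mul_zero, sub_zero] at h3
        rw [h3]
        exact Pool.Agent.W174.PG.lft_left _ _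
      · set D := ph x (p (k + 1)) - ph x (p k) with hD
        set s := - ph x (p k) / D with hs
        have hs0 : 0 ≤ s := div_nonneg (by linarith) h0.le
        have hs1 : s ≤ 1 := by rw [hs, div_le_one h0]; linarith
        have hval : ∀ j, sf p j ((1 - s) • p k + s • p (k + 1)) =
            (1 - s) * sf p j (p k) + s * sf p j (p (k + 1)) := fun j =>
          Pool.Agent.W174.PG.lft_comb _ _ _ _ (by ring)
        have hk0 : sf p k ((1 - s) • p k + s • p (k + 1)) = 0 := by
          rw [hval]
          unfold sf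
          rw [Pool.Agent.W174.PG.lft_left, Pool.Agent.W174.PG.lft_right]
          ring
        have hph : ph x ((1 - s) • p k + s • p (k + 1)) = 0 := by
          rw [ph_comb]
          have : s * D = - ph x (p k) := by rw [hs]; field_simp
          rw [hD] at this
          linarith
        refine ⟨(1 - s) • p k + s • p (k + 1), hph, hk0, fun j => ?_, ?_⟩
        · rw [hval]
          have a1 : 0 ≤ sf p j (p k) := Pool.Agent.W174.PG.l_nonneg hp j k
          have a2 : 0 ≤ sf p j (p (k + 1)) := Pool.Agent.W174.PG.l_nonneg hp j (k + 1)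
          have a3 : 0 ≤ 1 - s := by linarith
          positivity
        · have h3 := sf_on_line (p := p) k hy hph
          rw [hk0, ← hD] at h3
          have h4 := hyc k
          by_contra hcon
          push Not at hcon
          have : (tt x ((1 - s) • p k + s • p (k + 1)) - tt x y) * D < 0 :=
            mul_neg_of_neg_of_pos (by linarith) h0
          linarith
    have hr : rf p k y' = y' := hr4 k y' hy2
    have hy5 : ph (fl p k x) y' = 0 := by
      have := ph_fl (p := p) k x y'
      rw [hr, hy1, neg_zero] at this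
      exact this
    have h6 := ih (fl p k x) y' hW3 hy5 hy3 l h1 h2 hz1
    have h7 := tt_fl (p := p) k x (rf p k z₁) y'
    rw [hr1, hr] at h7
    linarith

end Pool.Agent.K3h17.BK
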