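import Pool.Agent.K3h17.BK.Mult

set_option autoImplicit false

/-!
Every line has a neighbourhood in which only linearly many words of a given length are realised.
-/

namespace Pool.Agent.K3h17.BK

open Complex Set MeasureTheory Filter Topology Pool.Agent.W780.PG Pool.Agent.W780.BB
  Pool.Agent.TH225.BL

open scoped Real ComplexConjugate

variable {n : ℕ} {p : Fin (n + 3) → ℂ}

theorem continuous_fl (i : Fin (n + 3)) : Continuous (fl p i) := by
  unfold fl dir
  fun_prop

theorem isOpen_RW (w : List (Fin (n + 3))) : IsOpen {x : ℝ × ℝ | RW p w x} := by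
  induction w with
  | nil => simp [RW]
  | cons i w ih =>
    have : {x : ℝ × ℝ | RW p (i :: w) x} = {x | ph x (p i) < 0} ∩ {x | 0 < ph x (p (i + 1))} ∩
        (fl p i ⁻¹' {x | RW p w x}) := by
      ext x
      simp only [RW, mem_ofPred_eq, mem_inter_iff, mem_preimage]
      tauto
    rw [this]
    exact ((isOpen_lt (continuous_ph _) continuous_const).inter
      (isOpen_lt continuous_const (continuous_ph _))).inter (ih.preimage (continuous_fl i))

/-- A realised word is realised by a line in general position. -/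
theorem generic {m : ℕ} {U : Set (ℝ × ℝ)} (hU : IsOpen U) {w : List (Fin (n + 3))} {x : ℝ × ℝ}
    (hx : x ∈ U) (hw : RW p w x) :
    ∃ x' ∈ U, RW p w x' ∧ ∀ a ∈ VF p m, ph x' a ≠ 0 := by
  have hO : IsOpen (U ∩ {x | RW p w x}) := hU.inter (isOpen_RW w)
  have ht : Tendsto (fun η : ℝ => ((x.1, x.2 + η) : ℝ × ℝ)) (𝓝[>] 0) (𝓝 x) := by
    have h1 : Continuous fun η : ℝ => ((x.1, x.2 + η) : ℝ × ℝ) := by fun_prop
    have h2 := (h1.tendsto 0).mono_left (nhdsWithin_le_nhds (s := Ioi (0 : ℝ)))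
    simpa using h2
  have e1 : ∀ᶠ η in 𝓝[>] (0 : ℝ), ((x.1, x.2 + η) : ℝ × ℝ) ∈ U ∩ {x | RW p w x} :=
    ht.eventually (hO.mem_nhds ⟨hx, hw⟩)
  have e2 : ∀ᶠ η in 𝓝[>] (0 : ℝ), ∀ a ∈ VF p m, ph (x.1, x.2 + η) a ≠ 0 := by
    rw [Filter.eventually_all_finset]
    intro a _
    have hval : ∀ η : ℝ, ph (x.1, x.2 + η) a = ph x a - η := by
      intro η
      unfold ph
      ring
    by_cases h0 : ph x a = 0
    · filter_upwards [self_mem_nhdsWithin] with η hη
      rw [hval, h0]
      have : (0 : ℝ) < η := hη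
      intro h
      linarith
    · have : ∀ᶠ η in 𝓝 (0 : ℝ), η ≠ ph x a := by
        apply IsOpen.mem_nhds isOpen_ne
        exact Ne.symm h0
      filter_upwards [nhdsWithin_le_nhds this] with η hη
      rw [hval]
      intro h
      exact hη (by linarith)
  obtain ⟨η, h1, h2⟩ := (e1.and e2).exists
  exact ⟨_, h1.1, h1.2, h2⟩

/-- The words of length `m` realised in a set of lines. -/
def words (p : Fin (n + 3) → ℂ) (m : ℕ) (U : Set (ℝ × ℝ)) : Set (List (Fin (n + 3))) :=
  {w | w.length = m ∧ ∃ x ∈ U, RW p w x}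

theorem words_finite (m : ℕ) (U : Set (ℝ × ℝ)) : (words p m U).Finite :=
  (List.finite_length_eq (Fin (n + 3)) m).subset fun _ h => h.1

theorem words_mono {m : ℕ} {U V : Set (ℝ × ℝ)} (h : U ⊆ V) : words p m U ⊆ words p m V := by
  rintro w ⟨h1, x, hx, h2⟩
  exact ⟨h1, x, h hx, h2⟩

/-- The bound for the local multiplicity. -/
def mb (n m : ℕ) : ℕ := 2 * (m * (n + 3) + 1)

open Classical in
theorem local_count (hp : IsConvexPolygon p) (m : ℕ) (x₀ : ℝ × ℝ) :
    (words p m (nb p m x₀)).ncard ≤ mb n m := by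
  have hfin : (words p m (nb p m x₀)).Finite := words_finite m _
  have hgen : ∀ w ∈ words p m (nb p m x₀), ∃ x' ∈ nb p m x₀, RW p w x' ∧
      ∀ a ∈ VF p m, ph x' a ≠ 0 := by
    rintro w ⟨-, x, hx, hw⟩
    exact generic (isOpen_nb m x₀) hx hw
  choose! X hX1 hX2 hX3 using hgen
  set F := hfin.toFinset with hF
  have hmem : ∀ w, w ∈ F ↔ w ∈ words p m (nb p m x₀) := fun w => by rw [hF]; simp
  set F1 := F.filter fun w => be x₀ (X w) ≤ 0 with hF1
  set F2 := F.filter fun w => ¬ be x₀ (X w) ≤ 0 with hF2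
  have c1 : F1.card ≤ m * (n + 3) + 1 := by
    refine count_half hp m x₀ 1 (Or.inl rfl) F1 X ?_
    intro w hw
    rw [hF1, Finset.mem_filter, hmem] at hw
    obtain ⟨h1, h2⟩ := hw
    exact ⟨h1.1, hX1 w h1, hX2 w h1, hX3 w h1, by rw [one_mul]; exact h2⟩
  have c2 : F2.card ≤ m * (n + 3) + 1 := by
    refine count_half hp m x₀ (-1) (Or.inr rfl) F2 X ?_
    intro w hw
    rw [hF2, Finset.mem_filter, hmem] at hw
    obtain ⟨h1, h2⟩ := hw
    push Not at h2
    exact ⟨h1.1, hX1 w h1, hX2 w h1, hX3 w h1, by linarith⟩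
  have h3 : F1.card + F2.card = F.card := Finset.card_filter_add_card_filter_not _
  rw [Set.ncard_eq_toFinset_card _ hfin, ← hF, ← h3]
  unfold mb
  omega

/-! ### Periodicity and bounded lines -/

theorem dir_period (θ : ℝ) (k : ℤ) : dir (θ + 2 * π * k) = dir θ := by
  unfold dir
  have : ((θ + 2 * π * k : ℝ) : ℂ) * I = (θ : ℂ) * I + k * (2 * π * I) := by
    push_cast
    ring
  rw [this, Complex.exp_add, Complex.exp_int_mul_two_pi_mul_I, mul_one]

theorem ph_period (x : ℝ × ℝ) (k : ℤ) (z : ℂ) : ph (x.1 + 2 * π * k, x.2) z = ph x z := by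
  unfold ph
  simp only [dir_period]

theorem fl_period (i : Fin (n + 3)) (x : ℝ × ℝ) (k : ℤ) :
    fl p i (x.1 + 2 * π * k, x.2) =
      ((fl p i x).1 + 2 * π * ((-k : ℤ) : ℝ), (fl p i x).2) := by
  unfold fl
  simp only [dir_period]
  have h : 2 * tau p i - (x.1 + 2 * π * k) = 2 * tau p i - x.1 + 2 * π * ((-k : ℤ) : ℝ) := by
    push_cast
    ring
  rw [h, dir_period]

theorem RW_period (w : List (Fin (n + 3))) : ∀ (x : ℝ × ℝ) (k : ℤ),
    RW p w (x.1 + 2 * π * k, x.2) ↔ RW p w x := by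
  induction w with
  | nil => intro x k; rfl
  | cons i w ih =>
    intro x k
    rw [RW, RW, ph_period, ph_period, fl_period, ih]

/-- A bound for the vertices. -/
noncomputable def Rb (p : Fin (n + 3) → ℂ) : ℝ := ∑ i, ‖p i‖

theorem le_Rb (i : Fin (n + 3)) : ‖p i‖ ≤ Rb p :=
  Finset.single_le_sum (f := fun i => ‖p i‖) (fun _ _ => norm_nonneg _) (Finset.mem_univ i)

theorem Rb_nonneg : 0 ≤ Rb p := Finset.sum_nonneg fun _ _ => norm_nonneg _

theorem abs_im_le (θ : ℝ) (z : ℂ) : |(conj (dir θ) * z).im| ≤ ‖z‖ := by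
  refine (Complex.abs_im_le_norm _).trans ?_
  rw [norm_mul, RCLike.norm_conj, Pool.Agent.W74.BB.norm_dir, one_mul]

theorem RW_bounded {i : Fin (n + 3)} {w : List (Fin (n + 3))} {x : ℝ × ℝ}
    (h : RW p (i :: w) x) : |x.2| ≤ Rb p := by
  obtain ⟨h1, h2, -⟩ := h
  unfold ph at h1 h2
  have a1 := abs_le.1 ((abs_im_le x.1 (p i)).trans (le_Rb i))
  have a2 := abs_le.1 ((abs_im_le x.1 (p (i + 1))).trans (le_Rb (i + 1)))
  rw [abs_le]
  constructor <;> linarith [a1.1, a1.2, a2.1, a2.2]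

/-- The closed box. -/
def bx (a b δ : ℝ) : Set (ℝ × ℝ) := Icc a (a + δ) ×ˢ Icc b (b + δ)

/-- In all small boxes only linearly many words of length `m` are realised. -/
theorem box_count (hp : IsConvexPolygon p) (m : ℕ) : ∃ δ : ℝ, 0 < δ ∧ δ ≤ 1 ∧
    ∀ a b : ℝ, (words p m (bx a b δ)).ncard ≤ mb n m := by
  rcases Nat.eq_zero_or_pos m with rfl | hm
  · refine ⟨1, one_pos, le_rfl, fun a b => ?_⟩
    have : words p 0 (bx a b 1) ⊆ {[]} := by
      rintro w ⟨hw, -⟩
      exact List.length_eq_zero_iff.1 hw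
    refine (Set.ncard_le_ncard this).trans ?_
    rw [Set.ncard_singleton]
    unfold mb
    omega
  set K : Set (ℝ × ℝ) := Icc 0 (2 * π) ×ˢ Icc (-(Rb p + 1)) (Rb p + 1) with hK
  have hKc : IsCompact K := isCompact_Icc.prod isCompact_Icc
  obtain ⟨δ', hδ', hleb⟩ := lebesgue_number_lemma_of_metric (s := K)
    (c := fun x : ℝ × ℝ => nb p m x) hKc (fun x => isOpen_nb m x)
    (fun x _ => mem_iUnion.2 ⟨x, mem_nb m x⟩)
  refine ⟨min (δ' / 2) 1, by positivity, min_le_right _ _, fun a b => ?_⟩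
  set δ := min (δ' / 2) 1 with hδ
  have hδ0 : 0 < δ := by positivity
  have hδ1 : δ ≤ 1 := min_le_right _ _
  have hδ2 : δ < δ' := lt_of_le_of_lt (min_le_left _ _) (by linarith)
  by_cases hb : b ∈ Icc (-(Rb p + 1)) (Rb p + 1)
  · -- reduce the angle
    obtain ⟨k, hk⟩ : ∃ k : ℤ, a + 2 * π * k ∈ Icc 0 (2 * π) := by
      have hpi := Real.pi_pos
      refine ⟨-⌊a / (2 * π)⌋, ?_⟩
      have h1 := Int.floor_le (a / (2 * π))
      have h2 := Int.lt_floor_add_one (a / (2 * π))
      rw [le_div_iff₀ (by positivity)] at h1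
      rw [div_lt_iff₀ (by positivity)] at h2
      push_cast
      constructor <;> nlinarith
    obtain ⟨y, hy⟩ := hleb (a + 2 * π * k, b) ⟨hk, hb⟩
    have hsub : words p m (bx a b δ) ⊆ words p m (nb p m y) := by
      rintro w ⟨hw, x, hx, hRW⟩
      refine ⟨hw, (x.1 + 2 * π * k, x.2), hy ?_, (RW_period w x k).2 hRW⟩
      rw [Metric.mem_ball, Prod.dist_eq]
      obtain ⟨⟨h1, h2⟩, h3, h4⟩ := hx
      apply max_lt
      · rw [Real.dist_eq, abs_lt]
        simp only []
        constructor <;> linarith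
      · rw [Real.dist_eq, abs_lt]
        simp only []
        constructor <;> linarith
    exact (Set.ncard_le_ncard hsub (words_finite m _)).trans (local_count hp m y)
  · have : words p m (bx a b δ) = ∅ := by
      rw [Set.eq_empty_iff_forall_notMem]
      rintro w ⟨hw, x, hx, hRW⟩
      cases w with
      | nil => simp at hw; omega
      | cons i w =>
        have h1 := abs_le.1 (RW_bounded hRW)
        obtain ⟨-, h3, h4⟩ := hx
        apply hb
        constructor <;> linarith [h1.1, h1.2]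
    rw [this, Set.ncard_empty]
    exact Nat.zero_le _

end Pool.Agent.K3h17.BK
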