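import Pool.Agent.K3h17.BK.Thr

set_option autoImplicit false

/-!
The structure theorem at the scale `h log (1 / h)`.
-/

namespace Pool.Agent.K3h17.BK

open Set MeasureTheory Filter Topology Pool.Agent.W780.PG Pool.Agent.W780.BB
  Pool.Agent.TH578.BE

open scoped Real

/-- The change of `m` at the angle `h` is at most `Λ h` times `h log (1 / h)` for arbitrarily small
`h > 0`. -/
def Below (Λ : ℝ → ℝ) (m : ℝ → ENNReal) : Prop :=
  ∃ᶠ h in 𝓝[>] (0 : ℝ), m h ≤ ENNReal.ofReal (Λ h * (h * Real.log (1 / h)))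

theorem main_A {n : ℕ} {p : Fin (n + 3) → ℂ} (hp : IsConvexPolygon p) :
    ∃ Λ : ℝ → ℝ, Tendsto Λ (𝓝[>] 0) atTop ∧
      (∀ (ω : ℝ) (χ : Fin (n + 3) → ℂ), (∀ i, ‖χ i‖ = 1) → ∀ f : ℂ × ℝ → ℂ, Measurable f →
        IsEigenfunction p ω χ f → Below Λ (modulus p f) →
          (ω ≠ 0 → ∀ᵐ x : ℂ × ℝ, x ∈ phase p → f x = 0) ∧
          (ω = 0 → ∃ g : ℝ → ℂ, Measurable g ∧ ∀ᵐ x : ℂ × ℝ, x ∈ phase p → f x = g x.2) ∧
          ((∃ i, Irrational (ang p i / π)) → (∀ i, χ i = 1 ∨ χ i = -1) →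
            ∃ c : ℂ, (∀ᵐ x : ℂ × ℝ, x ∈ phase p → f x = c) ∧
              (c ≠ 0 → ω = 0 ∧ ∀ i, χ i = 1))) ∧
      ((∃ i, Irrational (ang p i / π)) ↔
        ∀ A : Set (ℂ × ℝ), MeasurableSet A → IsInvariant p A → Below Λ (om p A) →
          IsTrivial p A) := by
  refine ⟨Lam p, Lam_tendsto hp, ?_, ?_, ?_⟩
  · intro ω χ hχ f hf hE hB
    exact final_f hp ω χ hχ f hf hE (small_of_Lam hp hB)
  · intro hirr A hA hI hB
    exact final_s hp hirr A hA hI (small_of_Lam hp hB)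
  · intro hall
    refine (finished hp).2.2 fun A hA hI hF => hall A hA hI ?_
    obtain ⟨C, hC⟩ := hF
    have h1 : ∀ᶠ h in 𝓝[>] (0 : ℝ), 0 < h ∧ h < 1 := by
      filter_upwards [Ioo_mem_nhdsGT (zero_lt_one : (0 : ℝ) < 1)] with h hh using hh
    have h2 := (Lam_tendsto hp).eventually (eventually_ge_atTop (max C 0))
    have h3 := tendsto_L.eventually (eventually_ge_atTop (1 : ℝ))
    refine Eventually.frequently ?_
    filter_upwards [h1, h2, h3] with h a1 a2 a3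
    refine (hC h a1.1 a1.2).trans (ENNReal.ofReal_le_ofReal ?_)
    have a4 : 0 ≤ Lam p h := (le_max_right _ _).trans a2
    calc C * h ≤ max C 0 * h := mul_le_mul_of_nonneg_right (le_max_left _ _) a1.1.le
      _ ≤ Lam p h * h := mul_le_mul_of_nonneg_right a2 a1.1.le
      _ = Lam p h * (h * 1) := by rw [mul_one]
      _ ≤ Lam p h * (h * Real.log (1 / h)) := by
          have := a1.1.le
          gcongr

end Pool.Agent.K3h17.BK
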