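import Pool.Agent.K3h17.BK.Line

set_option autoImplicit false

/-!
Near a given line only linearly many words of a given length are realised.
-/

namespace Pool.Agent.K3h17.BK

open Complex Set MeasureTheory Filter Topology Pool.Agent.W780.PG Pool.Agent.W780.BB
  Pool.Agent.TH225.BL

open scoped Real ComplexConjugate

variable {n : ℕ} {p : Fin (n + 3) → ℂ}

theorem ph_expand (x : ℝ × ℝ) (z : ℂ) :
    ph x z = (dir x.1).re * z.im - (dir x.1).im * z.re - x.2 := by
  unfold ph
  rw [Complex.mul_im, Complex.conj_re, Complex.conj_im]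
  ring

/-- A line leaves the polygon through one side only. -/
theorem uniq_side (hp : IsConvexPolygon p) {x : ℝ × ℝ} {j l : Fin (n + 3)}
    (h1 : ph x (p j) < 0) (h2 : 0 < ph x (p (j + 1))) (h3 : ph x (p l) < 0)
    (h4 : 0 < ph x (p (l + 1))) : j = l := by
  by_contra hjl
  have e1 : l ≠ j + 1 := by rintro rfl; linarith
  have e2 : j ≠ l + 1 := by rintro rfl; linarith
  have a1 := hp.pos j l (Ne.symm hjl) e1
  have a2 := hp.pos j (l + 1) (Ne.symm e2) (fun h => hjl (add_right_cancel h).symm)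
  have a3 := hp.pos l j hjl e2
  have a4 := hp.pos l (j + 1) (Ne.symm e1) (fun h => hjl (add_right_cancel h))
  have key : lft (p l) (p (l + 1)) (p (j + 1)) * ph x (p j) -
      lft (p l) (p (l + 1)) (p j) * ph x (p (j + 1)) +
      lft (p j) (p (j + 1)) (p (l + 1)) * ph x (p l) -
      lft (p j) (p (j + 1)) (p l) * ph x (p (l + 1)) = 0 := by
    simp only [ph_expand, Pool.Agent.W174.PG.lft_expand]
    ring
  have b1 := mul_neg_of_pos_of_neg a4 h1
  have b2 := mul_pos a3 h2
  have b3 := mul_neg_of_pos_of_neg a2 h3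
  have b4 := mul_pos a1 h4
  linarith

theorem ph_mul (hr : ∀ i z, rf p i (rf p i z) = z) (u : List (Fin (n + 3))) (x x' : ℝ × ℝ)
    (y : ℂ) : ph (fw p u x) y * ph (fw p u x') y = ph x (uf p u y) * ph x' (uf p u y) := by
  rw [ph_fw hr, ph_fw hr]
  have : ((-1 : ℝ) ^ u.length) * (-1) ^ u.length = 1 := by
    rw [← mul_pow]; norm_num
  calc _ = ((-1 : ℝ) ^ u.length * (-1) ^ u.length) * (ph x (uf p u y) * ph x' (uf p u y)) := by
        ring
    _ = _ := by rw [this, one_mul]

/-- Where two words branch, an unfolded vertex separates the lines. -/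
theorem branch (hp : IsConvexPolygon p) {m : ℕ} {u v v' : List (Fin (n + 3))}
    {j j' : Fin (n + 3)} {x x' : ℝ × ℝ} (hm : u.length ≤ m)
    (h1 : RW p (u ++ j :: v) x) (h2 : RW p (u ++ j' :: v') x') (hne : j ≠ j')
    (hx : ∀ a ∈ VF p m, ph x a ≠ 0) :
    ∃ k, uf p u (p k) ∈ VF p m ∧ ph x (uf p u (p k)) * ph x' (uf p u (p k)) < 0 := by
  obtain ⟨hr1, -⟩ := Pool.Agent.W347.BB.ref n p hp
  rw [RW_append, RW] at h1 h2
  obtain ⟨-, a1, a2, -⟩ := h1
  obtain ⟨-, b1, b2, -⟩ := h2
  have hV : ∀ k, uf p u (p k) ∈ VF p m := fun k => VF_uf p k u m hm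
  have hnz : ∀ k, ph (fw p u x) (p k) ≠ 0 := by
    intro k
    rw [ph_fw hr1]
    exact mul_ne_zero (pow_ne_zero _ (by norm_num)) (hx _ (hV k))
  by_cases c1 : ph (fw p u x) (p j') < 0
  · by_cases c2 : 0 < ph (fw p u x) (p (j' + 1))
    · exact absurd (uniq_side hp a1 a2 c1 c2) hne
    · refine ⟨j' + 1, hV _, ?_⟩
      rw [← ph_mul hr1]
      exact mul_neg_of_neg_of_pos (lt_of_le_of_ne (not_lt.1 c2) (hnz _)) b2
  · refine ⟨j', hV _, ?_⟩
    rw [← ph_mul hr1]
    exact mul_neg_of_pos_of_neg (lt_of_le_of_ne (not_lt.1 c1) (Ne.symm (hnz _))) b1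

/-- The neighbourhood of a line. -/
def nb (p : Fin (n + 3) → ℂ) (m : ℕ) (x₀ : ℝ × ℝ) : Set (ℝ × ℝ) :=
  {x | ∀ a ∈ VF p m, ph x₀ a ≠ 0 → 0 < ph x₀ a * ph x a}

theorem continuous_ph (a : ℂ) : Continuous fun x : ℝ × ℝ => ph x a := by
  unfold ph dir
  fun_prop

theorem isOpen_nb (m : ℕ) (x₀ : ℝ × ℝ) : IsOpen (nb p m x₀) := by
  have : nb p m x₀ = ⋂ a ∈ VF p m, {x | ph x₀ a ≠ 0 → 0 < ph x₀ a * ph x a} := by
    ext x
    simp [nb]
  rw [this]
  refine isOpen_biInter_finset fun a _ => ?_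
  by_cases h : ph x₀ a = 0
  · have : {x : ℝ × ℝ | ph x₀ a ≠ 0 → 0 < ph x₀ a * ph x a} = univ := by
      ext x
      simp [h]
    rw [this]
    exact isOpen_univ
  · have : {x : ℝ × ℝ | ph x₀ a ≠ 0 → 0 < ph x₀ a * ph x a} = {x | 0 < ph x₀ a * ph x a} := by
      ext x
      simp [h]
    rw [this]
    exact isOpen_lt continuous_const (continuous_const.mul (continuous_ph a))

theorem mem_nb (m : ℕ) (x₀ : ℝ × ℝ) : x₀ ∈ nb p m x₀ := by
  intro a _ h
  exact mul_self_pos.2 h

theorem weak_of (hp : IsConvexPolygon p) {m : ℕ} {x₀ x : ℝ × ℝ} (hx : x ∈ nb p m x₀)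
    (v : List (Fin (n + 3))) : ∀ u : List (Fin (n + 3)), (u ++ v).length ≤ m + 1 →
      RW p v (fw p u x) → WW p v (fw p u x₀) := by
  obtain ⟨hr1, -⟩ := Pool.Agent.W347.BB.ref n p hp
  induction v with
  | nil => intro u _ _; trivial
  | cons i v ih =>
    intro u hu h
    obtain ⟨h1, h2, h3⟩ := h
    have hul : u.length ≤ m := by
      rw [List.length_append, List.length_cons] at hu
      omega
    have hprod : ∀ k, 0 ≤ ph (fw p u x₀) (p k) * ph (fw p u x) (p k) := by
      intro k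
      rw [ph_mul hr1]
      by_cases h0 : ph x₀ (uf p u (p k)) = 0
      · rw [h0, zero_mul]
      · exact (hx _ (VF_uf p k u m hul) h0).le
    refine ⟨?_, ?_, ?_⟩
    · by_contra hcon
      push Not at hcon
      have := hprod i
      have := mul_neg_of_pos_of_neg hcon h1
      linarith
    · by_contra hcon
      push Not at hcon
      have := hprod (i + 1)
      have := mul_neg_of_neg_of_pos hcon h2
      linarith
    · have e : ∀ y, fl p i (fw p u y) = fw p (u ++ [i]) y := by
        intro y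
        rw [fw_append]
        rfl
      rw [e]
      rw [e] at h3
      refine ih (u ++ [i]) ?_ h3
      rw [List.append_assoc]
      exact hu

theorem list_branch {α : Type*} : ∀ l l' : List α, l.length = l'.length → l ≠ l' →
    ∃ u a b v v', l = u ++ a :: v ∧ l' = u ++ b :: v' ∧ a ≠ b := by
  intro l
  induction l with
  | nil =>
    intro l' h hne
    exact absurd (List.length_eq_zero_iff.1 h.symm).symm hne
  | cons a l ih =>
    intro l' h hne
    cases l' with
    | nil => simp at h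
    | cons b l' =>
      by_cases hab : a = b
      · subst hab
        obtain ⟨u, c, d, v, v', h1, h2, h3⟩ := ih l' (by simpa using h) (by simpa using hne)
        exact ⟨a :: u, c, d, v, v', by rw [h1]; rfl, by rw [h2]; rfl, h3⟩
      · exact ⟨[], a, b, l, l', rfl, rfl, hab⟩

/-- The slope of the line `x` relative to `x₀`. -/
noncomputable def be (x₀ x : ℝ × ℝ) : ℝ := (conj (dir x.1) * dir x₀.1).im

theorem ph_slope {x₀ x : ℝ × ℝ} {a b : ℂ} (ha : ph x₀ a = 0) (hb : ph x₀ b = 0) :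
    ph x b = ph x a + (tt x₀ b - tt x₀ a) * be x₀ x := by
  conv_lhs => rw [on_line ha hb]
  unfold ph be
  have : conj (dir x.1) * (a + (tt x₀ b - tt x₀ a) • dir x₀.1) =
      conj (dir x.1) * a + ((tt x₀ b - tt x₀ a : ℝ) : ℂ) * (conj (dir x.1) * dir x₀.1) := by
    rw [real_smul]
    ring
  rw [this, Complex.add_im, Complex.im_ofReal_mul]
  ring

/-- The main step for the injectivity. -/
theorem inj_aux (hp : IsConvexPolygon p) {m : ℕ} {x₀ x x' : ℝ × ℝ} {κ : ℝ}
    {u q r r' : List (Fin (n + 3))} {j b b' k k' : Fin (n + 3)}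
    (hm : (u ++ j :: q).length ≤ m) (hx : x ∈ nb p m x₀) (hx' : x' ∈ nb p m x₀)
    (h1 : RW p ((u ++ j :: q) ++ b :: r) x) (h2 : RW p ((u ++ j :: q) ++ b' :: r') x')
    (hsl : κ * be x₀ x' ≤ 0)
    (hk : ph x₀ (uf p u (p k)) = 0) (hkx : κ * ph x' (uf p u (p k)) < 0)
    (hk' : ph x (uf p (u ++ j :: q) (p k')) * ph x' (uf p (u ++ j :: q) (p k')) < 0)
    (hkx' : 0 < κ * ph x' (uf p (u ++ j :: q) (p k'))) : False := by
  obtain ⟨hr1, -, -, hr4, -⟩ := Pool.Agent.W347.BB.ref n p hp
  obtain ⟨v, i, hvi⟩ : ∃ v i, j :: q = v ++ [i] := by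
    rcases List.eq_nil_or_concat (j :: q) with h | ⟨v, i, h⟩
    · simp at h
    · exact ⟨v, i, h.trans List.concat_eq_append⟩
  rw [hvi] at hm h1 h2 hk' hkx'
  have hV : uf p (u ++ (v ++ [i])) (p k') ∈ VF p m := VF_uf p k' _ m hm
  have ha' : ph x₀ (uf p (u ++ (v ++ [i])) (p k')) = 0 := by
    by_contra hne
    have c1 := hx _ hV hne
    have c2 := hx' _ hV hne
    have c3 : 0 < (ph x₀ (uf p (u ++ (v ++ [i])) (p k'))) ^ 2 *
        (ph x (uf p (u ++ (v ++ [i])) (p k')) * ph x' (uf p (u ++ (v ++ [i])) (p k'))) := by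
      have := mul_pos c1 c2
      nlinarith
    have c4 : 0 ≤ (ph x₀ (uf p (u ++ (v ++ [i])) (p k'))) ^ 2 := sq_nonneg _
    nlinarith
  have s1 := ph_slope (x := x') ha' hk
  have s2 : tt x₀ (uf p (u ++ (v ++ [i])) (p k')) < tt x₀ (uf p u (p k)) := by
    by_contra hcon
    push Not at hcon
    have : κ * ((tt x₀ (uf p u (p k)) - tt x₀ (uf p (u ++ (v ++ [i])) (p k'))) * be x₀ x') =
        (tt x₀ (uf p u (p k)) - tt x₀ (uf p (u ++ (v ++ [i])) (p k'))) * (κ * be x₀ x') := by
      ring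
    have h5 : 0 ≤ (tt x₀ (uf p u (p k)) - tt x₀ (uf p (u ++ (v ++ [i])) (p k'))) *
        (κ * be x₀ x') := mul_nonneg_of_nonpos_of_nonpos (by linarith) hsl
    rw [s1, mul_add, this] at hkx
    linarith
  -- the signs at the last crossing
  have g : ∀ (y : ℝ × ℝ) (c : Fin (n + 3)) (t : List (Fin (n + 3))),
      RW p ((u ++ (v ++ [i])) ++ c :: t) y →
      ph (fw p (u ++ v) y) (p i) < 0 ∧ 0 < ph (fw p (u ++ v) y) (p (i + 1)) ∧
        RW p (v ++ [i]) (fw p u y) := by
    intro y c t h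
    rw [RW_append, RW_append u] at h
    obtain ⟨⟨-, h3⟩, -⟩ := h
    refine ⟨?_, ?_, h3⟩
    · rw [RW_append] at h3
      rw [fw_append]
      exact h3.2.1
    · rw [RW_append] at h3
      rw [fw_append]
      exact h3.2.2.1
  obtain ⟨g1, g2, g3⟩ := g x b r h1
  obtain ⟨g1', g2', -⟩ := g x' b' r' h2
  have hl : ∀ c, uf p (u ++ (v ++ [i])) c = uf p (u ++ v) (rf p i c) := by
    intro c
    rw [← List.append_assoc, uf_append]
    rfl
  have hk1 : k' ≠ i := by
    rintro rfl
    rw [hl, hr4 _ _ (Pool.Agent.W174.PG.lft_left _ _), ← ph_mul hr1] at hk'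
    have := mul_pos_of_neg_of_neg g1 g1'
    linarith
  have hk2 : k' ≠ i + 1 := by
    rintro rfl
    rw [hl, hr4 _ _ (Pool.Agent.W174.PG.lft_right _ _), ← ph_mul hr1] at hk'
    have := mul_pos g2 g2'
    linarith
  have hW := weak_of hp hx (v ++ [i]) u (by omega) g3
  have o1 : ph (fw p u x₀) (p k) = 0 := by rw [ph_fw hr1, hk, mul_zero]
  have o2 : ph (fw p u x₀) (uf p (v ++ [i]) (p k')) = 0 := by
    rw [ph_fw hr1, ← uf_append, ha', mul_zero]
  have o3 := ord hp i v (fw p u x₀) (p k) hW o1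
    (fun j => Pool.Agent.W174.PG.l_nonneg hp j k) k' hk1 hk2 o2
  have o4 := tt_fw hr1 u x₀ (p k) (uf p (v ++ [i]) (p k'))
  rw [← uf_append] at o4
  linarith

open Classical in
/-- The count for one sign of the slope. -/
theorem count_half (hp : IsConvexPolygon p) (m : ℕ) (x₀ : ℝ × ℝ) (κ : ℝ)
    (hκ : κ = 1 ∨ κ = -1) (F : Finset (List (Fin (n + 3)))) (X : List (Fin (n + 3)) → ℝ × ℝ)
    (h : ∀ w ∈ F, w.length = m ∧ X w ∈ nb p m x₀ ∧ RW p w (X w) ∧
      (∀ a ∈ VF p m, ph (X w) a ≠ 0) ∧ κ * be x₀ (X w) ≤ 0) :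
    F.card ≤ m * (n + 3) + 1 := by
  rcases F.eq_empty_or_nonempty with rfl | hF
  · simp
  have hκ2 : κ * κ = 1 := by rcases hκ with rfl | rfl <;> norm_num
  set P : List (Fin (n + 3)) → Finset ℂ := fun w =>
    (VF p m).filter fun a => ph x₀ a = 0 ∧ 0 < κ * ph (X w) a with hP
  obtain ⟨W, hWF, hWmax⟩ := Finset.exists_max_image F (fun w => (P w).card) hF
  have hspec : ∀ w ∈ F.erase W, ∃ dj : ℕ × Fin (n + 3), dj.1 < m ∧ ∃ u j' v v' k,
      w = u ++ dj.2 :: v ∧ W = u ++ j' :: v' ∧ dj.2 ≠ j' ∧ u.length = dj.1 ∧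
      ph x₀ (uf p u (p k)) = 0 ∧ κ * ph (X w) (uf p u (p k)) < 0 := by
    intro w hw
    rw [Finset.mem_erase] at hw
    obtain ⟨hwW, hwF⟩ := hw
    obtain ⟨a1, a2, a3, a4, a5⟩ := h w hwF
    obtain ⟨b1, b2, b3, b4, b5⟩ := h W hWF
    obtain ⟨u, j, j', v, v', hu1, hu2, hjj⟩ := list_branch w W (a1.trans b1.symm) hwW
    have hum : u.length < m := by
      rw [← a1, hu1]
      simp
    have a3' : RW p (u ++ j :: v) (X w) := by rw [← hu1]; exact a3
    have b3' : RW p (u ++ j' :: v') (X W) := by rw [← hu2]; exact b3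
    obtain ⟨k, hk1, hk2⟩ := branch hp hum.le a3' b3' hjj a4
    have hk0 : ph x₀ (uf p u (p k)) = 0 := by
      by_contra hne
      have c1 := a2 _ hk1 hne
      have c2 := b2 _ hk1 hne
      have c3 := mul_pos c1 c2
      have c4 : 0 ≤ (ph x₀ (uf p u (p k))) ^ 2 := sq_nonneg _
      nlinarith
    refine ⟨(u.length, j), hum, u, j', v, v', k, hu1, hu2, hjj, rfl, hk0, ?_⟩
    by_contra hcon
    push Not at hcon
    -- then the positive set of `W` is smaller
    have d1 : 0 < κ * ph (X w) (uf p u (p k)) := by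
      refine lt_of_le_of_ne hcon (Ne.symm (mul_ne_zero ?_ (a4 _ hk1)))
      rintro rfl
      norm_num at hκ2
    have d2 : κ * ph (X W) (uf p u (p k)) < 0 := by
      have : (κ * ph (X w) (uf p u (p k))) * (κ * ph (X W) (uf p u (p k))) < 0 := by
        calc _ = (κ * κ) * (ph (X w) (uf p u (p k)) * ph (X W) (uf p u (p k))) := by ring
          _ < 0 := by rw [hκ2, one_mul]; exact hk2
      by_contra hc
      push Not at hc
      have := mul_nonneg d1.le hc
      linarith
    have hlt : (P W).card < (P w).card := by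
      apply Finset.card_lt_card
      rw [Finset.ssubset_iff_of_subset]
      · refine ⟨uf p u (p k), ?_, ?_⟩
        · rw [hP, Finset.mem_filter]
          exact ⟨hk1, hk0, d1⟩
        · rw [hP, Finset.mem_filter]
          rintro ⟨-, -, h3⟩
          linarith
      · intro c hc
        rw [hP, Finset.mem_filter] at hc ⊢
        obtain ⟨hc1, hc2, hc3⟩ := hc
        refine ⟨hc1, hc2, ?_⟩
        have s1 := ph_slope (x := X W) hc2 hk0
        have s2 := ph_slope (x := X w) hk0 hc2
        have s3 : tt x₀ c < tt x₀ (uf p u (p k)) := by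
          by_contra hcon2
          push Not at hcon2
          have : 0 ≤ (tt x₀ (uf p u (p k)) - tt x₀ c) * (κ * be x₀ (X W)) :=
            mul_nonneg_of_nonpos_of_nonpos (by linarith) b5
          rw [s1] at d2
          nlinarith
        have s4 : 0 ≤ (tt x₀ c - tt x₀ (uf p u (p k))) * (κ * be x₀ (X w)) :=
          mul_nonneg_of_nonpos_of_nonpos (by linarith) a5
        rw [s2]
        nlinarith
    exact absurd (hWmax w hwF) (not_le.2 hlt)
  choose! f hf1 hf2 using hspec
  have hcard : (F.erase W).card ≤ (Finset.range m ×ˢ (Finset.univ : Finset (Fin (n + 3)))).card := by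
    apply Finset.card_le_card_of_injOn f
    · intro w hw
      simp only [Finset.coe_product, Finset.coe_range, Finset.coe_univ, Set.mem_prod, Set.mem_Iio,
        Set.mem_univ, and_true]
      exact hf1 w hw
    · intro w1 hw1 w2 hw2 hf
      obtain ⟨u1, j1, v1, v1', k1, p1, p2, p3, p4, p5, p6⟩ := hf2 w1 hw1
      obtain ⟨u2, j2, v2, v2', k2, q1, q2, q3, q4, q5, q6⟩ := hf2 w2 hw2
      have hF1 := Finset.mem_of_mem_erase hw1
      have hF2 := Finset.mem_of_mem_erase hw2
      obtain ⟨a1, a2, a3, a4, a5⟩ := h w1 hF1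
      obtain ⟨b1, b2, b3, b4, b5⟩ := h w2 hF2
      rw [← hf] at q1 q3 q4
      have hu : u2 = u1 := by
        have e1 : u1 = W.take (f w1).1 := by rw [p2, ← p4, List.take_left]
        have e2 : u2 = W.take (f w1).1 := by rw [q2, ← q4, List.take_left]
        rw [e1, e2]
      subst hu
      by_contra hne
      have hv : v1 ≠ v2 := by
        rintro rfl
        exact hne (p1.trans q1.symm)
      have hlen : v1.length = v2.length := by
        have e1 : w1.length = w2.length := a1.trans b1.symm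
        rw [p1, q1] at e1
        simpa using e1
      obtain ⟨q, c, c', r, r', hq1, hq2, hcc⟩ := list_branch v1 v2 hlen hv
      have e1 : w1 = (u2 ++ (f w1).2 :: q) ++ c :: r := by
        rw [hq1] at p1
        rw [List.append_assoc, List.cons_append]
        exact p1
      have e2 : w2 = (u2 ++ (f w1).2 :: q) ++ c' :: r' := by
        rw [hq2] at q1
        rw [List.append_assoc, List.cons_append]
        exact q1
      have hlm : (u2 ++ (f w1).2 :: q).length ≤ m := by
        have : w1.length = m := a1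
        rw [e1, List.length_append] at this
        omega
      have h1' : RW p ((u2 ++ (f w1).2 :: q) ++ c :: r) (X w1) := by rw [← e1]; exact a3
      have h2' : RW p ((u2 ++ (f w1).2 :: q) ++ c' :: r') (X w2) := by rw [← e2]; exact b3
      obtain ⟨k', hk1, hk2⟩ := branch hp hlm h1' h2' hcc a4
      set a' := uf p (u2 ++ (f w1).2 :: q) (p k') with ha'
      have hsgn : (κ * ph (X w1) a') * (κ * ph (X w2) a') < 0 := by
        calc _ = (κ * κ) * (ph (X w1) a' * ph (X w2) a') := by ring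
          _ < 0 := by rw [hκ2, one_mul]; exact hk2
      rcases mul_neg_iff.1 hsgn with ⟨s1, s2⟩ | ⟨s1, s2⟩
      · refine inj_aux hp hlm b2 a2 h2' h1' a5 p5 p6 (k' := k') ?_ s1
        rw [mul_comm]
        exact hk2
      · exact inj_aux hp hlm a2 b2 h1' h2' b5 q5 q6 (k' := k') hk2 s2
  rw [Finset.card_product, Finset.card_range, Finset.card_univ, Fintype.card_fin] at hcard
  have := Finset.card_erase_add_one hWF
  omega

end Pool.Agent.K3h17.BK
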